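import Mathlib
import Pool.Agent.Lib.MP_0a1b52_lc_RK.Defs
import Pool.Agent.Lib.MP_0a1b52_lc_RP.Defs

/-!
# Gadgets with control edges in a given set of variables: definitions
-/

set_option autoImplicit false

namespace Pool.Agent.RS

open Finset Pool.Agent.FP

/-- A frame: the place for gadgets with two control edges and further vertices (the padding).  A
gadget is given by a pair `q` (its two control edges have the numbers `q 0`, `q 1`) and by its
padding.  The ends of the control edges are the hub positions of the gadget (`c` of them); the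
control edge `t` joins the hub positions `a t` and `b t`. -/
structure Frame (n c m N : ℕ) where
  a : Fin 2 → Fin c
  b : Fin 2 → Fin c
  hab : ∀ t, a t ≠ b t
  hne : s(a 0, b 0) ≠ s(a 1, b 1)
  /-- the classes of the vertices -/
  κ : Fin n → Option (Fin c)
  /-- the vertex at a hub position of the gadget with the control edges `q` -/
  ν : (Fin 2 → Fin m) → Fin c → Fin n
  hκ : ∀ q j, κ (ν q j) = some j
  /-- the control edges -/
  ed : Fin 2 → Fin m → EdgeVar n
  hed : ∀ q t, (ed t (q t)).1 = (ν q (a t), ν q (b t)) ∨ (ed t (q t)).1 = (ν q (b t), ν q (a t))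
  inj : ∀ t, Function.Injective (ed t)
  /-- the vertices for the padding -/
  pad : Fin N → Fin n
  pinj : Function.Injective pad
  pκ : ∀ v, κ (pad v) = none
  /-- further vertices, joined to all vertices -/
  R : Finset (Fin n)
  hRκ : ∀ u ∈ R, κ u = none
  hRp : ∀ v, pad v ∉ R
  few : ∀ (j : Fin c) (u : Fin n), (univ.filter fun q => ν q j = u).card ≤ min m n * m

variable {n c m N G z : ℕ}

/-- the vertices of a gadget -/
def Frame.vtx (F : Frame n c m N) (q : Fin 2 → Fin m) (p : Fin z → Fin N) :
    Fin c ⊕ Fin z → Fin n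
  | .inl j => F.ν q j
  | .inr k => F.pad (p k)

/-- the pair of positions `j`, `j'` is switched on by `Y`: `Y t` is true if it is the control
pair `t` -/
def Frame.On (F : Frame n c m N) (Y : Fin 2 → Bool) (j j' : Fin c ⊕ Fin z) : Prop :=
  ∀ t, (j = .inl (F.a t) ∧ j' = .inl (F.b t) ∨ j = .inl (F.b t) ∧ j' = .inl (F.a t)) → Y t = true

/-- adjacency in the graph of the gadgets `i` of `Λ`, `Y t i` says whether the control edge `t` of
the gadget `i` is present -/
def Frame.Adj (F : Frame n c m N) (Λ : Finset (Fin G)) (q : Fin G → Fin 2 → Fin m)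
    (p : Fin G → Fin z → Fin N) (Y : Fin 2 → Fin G → Bool) (u v : Fin n) : Prop :=
  u ∈ F.R ∨ v ∈ F.R ∨ ∃ i ∈ Λ, ∃ j j', j ≠ j' ∧ u = F.vtx (q i) (p i) j ∧
    v = F.vtx (q i) (p i) j' ∧ F.On (fun t => Y t i) j j'

open Classical in
/-- the graph as an assignment -/
noncomputable def Frame.gr (F : Frame n c m N) (Λ : Finset (Fin G)) (q : Fin G → Fin 2 → Fin m)
    (p : Fin G → Fin z → Fin N) (Y : Fin 2 → Fin G → Bool) : EdgeVar n → Bool :=
  fun e => decide (F.Adj Λ q p Y e.1.1 e.1.2)

/-- a system of gadgets without bad configurations: the paddings have none, the control edges are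
different, and there is no hub fan (a gadget `i₀`, `a` of its padding vertices and a hub vertex
joined to them by `a` different gadgets `≠ i₀`) -/
structure Frame.Sys (F : Frame n c m N) (a h : ℕ) (Λ : Finset (Fin G))
    (q : Fin G → Fin 2 → Fin m) (p : Fin G → Fin z → Fin N) : Prop where
  nobad : Pool.Agent.RP.NoBad a h fun i : {i // i ∈ Λ} => p i.1
  uniq : ∀ t, ∀ i ∈ Λ, ∀ i' ∈ Λ, q i t = q i' t → i = i'
  hub : ∀ i₀ ∈ Λ, ∀ (j : Fin c) (f : Fin a → Fin G) (k l : Fin a → Fin z), (∀ x, f x ∈ Λ) →
    Function.Injective f → Function.Injective k → (∀ x, f x ≠ i₀) →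
    (∀ x, p (f x) (l x) = p i₀ (k x)) → (∀ x y, F.ν (q (f x)) j = F.ν (q (f y)) j) → False

/-- the fooling inputs: exactly one control edge of each gadget is present -/
def fo (x : Fin G → Bool) : Fin 2 → Fin G → Bool := fun t i => if t = 0 then x i else !x i

end Pool.Agent.RS
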