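import Mathlib
import Pool.Agent.Lib.MP_0a1b52_lc_RS.Defs
import Pool.Agent.Lib.MP_0a1b52_lc_RP.Struct

/-!
# Gadgets with control edges in a given set of variables: the cliques
-/

set_option autoImplicit false

namespace Pool.Agent.RS

open Finset Pool.Agent.FP Pool.Agent.RP

variable {n c m N G z : ℕ}

private theorem on_symm (F : Frame n c m N) {Y : Fin 2 → Bool} {j j' : Fin c ⊕ Fin z}
    (h : F.On Y j j') : F.On Y j' j := by
  intro t ht
  refine h t ?_
  rcases ht with ⟨h1, h2⟩ | ⟨h1, h2⟩
  · exact Or.inr ⟨h2, h1⟩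
  · exact Or.inl ⟨h2, h1⟩

private theorem adj_symm (F : Frame n c m N) {L : Finset (Fin G)} {q : Fin G → Fin 2 → Fin m}
    {p : Fin G → Fin z → Fin N} {Y : Fin 2 → Fin G → Bool} {u v : Fin n}
    (h : F.Adj L q p Y u v) : F.Adj L q p Y v u := by
  rcases h with h | h | ⟨i, hi, j, j', h1, h2, h3, h4⟩
  · exact Or.inr (Or.inl h)
  · exact Or.inl h
  · exact Or.inr (Or.inr ⟨i, hi, j', j, h1.symm, h3, h2, on_symm F h4⟩)

private theorem gr_graph (F : Frame n c m N) (L : Finset (Fin G)) (q : Fin G → Fin 2 → Fin m)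
    (p : Fin G → Fin z → Fin N) (Y : Fin 2 → Fin G → Bool) (u v : Fin n) (huv : u ≠ v) :
    (graphOf (F.gr L q p Y)).Adj u v ↔ F.Adj L q p Y u v := by
  constructor
  · rintro ⟨e, h, h1⟩
    have h2 : F.Adj L q p Y e.1.1 e.1.2 := by simpa [Frame.gr] using h
    rcases h1 with h1 | h1
    · rw [h1] at h2; exact h2
    · rw [h1] at h2; exact adj_symm F h2
  · intro h
    rcases lt_or_gt_of_ne huv with h1 | h1
    · exact ⟨⟨(u, v), h1⟩, by simpa [Frame.gr] using h, Or.inl rfl⟩
    · exact ⟨⟨(v, u), h1⟩, by simpa [Frame.gr] using adj_symm F h, Or.inr rfl⟩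

/-- the class of a vertex of a gadget -/
private def cls : Fin c ⊕ Fin z → Option (Fin c)
  | .inl j => some j
  | .inr _ => none

private theorem κ_vtx (F : Frame n c m N) (q : Fin 2 → Fin m) (p : Fin z → Fin N)
    (j : Fin c ⊕ Fin z) : F.κ (F.vtx q p j) = cls j := by
  rcases j with j | k
  · exact F.hκ q j
  · exact F.pκ (p k)

private theorem pos_hub (F : Frame n c m N) {q : Fin 2 → Fin m} {p : Fin z → Fin N}
    {j : Fin c ⊕ Fin z} {u : Fin n} {j₀ : Fin c} (h : u = F.vtx q p j) (hu : F.κ u = some j₀) :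
    j = .inl j₀ := by
  have h1 := κ_vtx F q p j
  rw [← h, hu] at h1
  rcases j with j | k
  · simp only [cls, Option.some.injEq] at h1
    rw [h1]
  · simp [cls] at h1

private theorem pos_pad (F : Frame n c m N) {q : Fin 2 → Fin m} {p : Fin z → Fin N}
    {j : Fin c ⊕ Fin z} {u : Fin n} (h : u = F.vtx q p j) (hu : F.κ u = none) :
    ∃ k, j = .inr k ∧ u = F.pad (p k) := by
  have h1 := κ_vtx F q p j
  rw [← h, hu] at h1
  rcases j with j | k
  · simp [cls] at h1
  · exact ⟨k, rfl, h⟩

private theorem vtx_inj (F : Frame n c m N) (q : Fin 2 → Fin m) {p : Fin z → Fin N}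
    (hp : Function.Injective p) : Function.Injective (F.vtx q p) := by
  intro j j' h
  have h1 := κ_vtx F q p j
  have h2 := κ_vtx F q p j'
  rw [h, h2] at h1
  rcases j with j | k <;> rcases j' with j' | k'
  · simp only [cls, Option.some.injEq] at h1
    rw [h1]
  · simp [cls] at h1
  · simp [cls] at h1
  · have h3 : F.pad (p k) = F.pad (p k') := h
    rw [hp (F.pinj h3)]

private theorem edge_eq {e e' : EdgeVar n} {u v : Fin n}
    (h : e.1 = (u, v) ∨ e.1 = (v, u)) (h' : e'.1 = (u, v) ∨ e'.1 = (v, u)) : e = e' := by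
  have h1 := e.2
  have h2 := e'.2
  apply Subtype.ext
  rcases h with h | h <;> rcases h' with h' | h' <;> rw [h] at h1 <;> rw [h'] at h2
  · rw [h, h']
  · exact absurd h1 (lt_asymm h2)
  · exact absurd h1 (lt_asymm h2)
  · rw [h, h']

private theorem same_edge (F : Frame n c m N) {e : EdgeVar n} {q : Fin 2 → Fin m} {t : Fin 2}
    (h : e.1 = (F.ν q (F.a t), F.ν q (F.b t)) ∨ e.1 = (F.ν q (F.b t), F.ν q (F.a t))) :
    e = F.ed t (q t) :=
  edge_eq h (F.hed q t)

theorem clq_iff (F : Frame n c m N) {a h : ℕ} (ha : 1 ≤ a) (hh : 2 ≤ h) (hz : a * h ^ 2 ≤ z)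
    (hR : F.R.card + (c + z) = Nat.sqrt n + 1) {L : Finset (Fin G)} {q : Fin G → Fin 2 → Fin m}
    {p : Fin G → Fin z → Fin N} (hs : F.Sys a h L q p) (Y : Fin 2 → Fin G → Bool) :
    Clq (F.gr L q p Y) ↔ ∃ i ∈ L, ∀ t, Y t i = true := by
  classical
  have hinj : ∀ i ∈ L, Function.Injective (p i) := fun i hi => hs.nobad.inj ⟨i, hi⟩
  constructor
  · rintro ⟨Q, hQ, hcard⟩
    have h1 : Nat.sqrt n + 1 ≤ Q.card := by
      have h2 : ((Nat.sqrt n : ℕ) : ℝ) < Q.card := lt_of_le_of_lt (Real.nat_sqrt_le_real_sqrt) hcard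
      exact_mod_cast h2
    set S := Q \ F.R with hS
    have h2 : c + z ≤ S.card := by
      have h3 := Finset.le_card_sdiff F.R Q
      rw [← hS] at h3
      omega
    have hadj : ∀ u ∈ S, ∀ v ∈ S, u ≠ v → ∃ i ∈ L, ∃ j j', j ≠ j' ∧ u = F.vtx (q i) (p i) j ∧
        v = F.vtx (q i) (p i) j' ∧ F.On (fun t => Y t i) j j' := by
      intro u hu v hv huv
      obtain ⟨hu1, hu2⟩ := Finset.mem_sdiff.1 hu
      obtain ⟨hv1, hv2⟩ := Finset.mem_sdiff.1 hv
      have h3 := (gr_graph F L q p Y u v huv).1
        (hQ (by exact_mod_cast hu1) (by exact_mod_cast hv1) huv)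
      rcases h3 with h3 | h3 | h3
      · exact absurd h3 hu2
      · exact absurd h3 hv2
      · exact h3
    -- at most one vertex in each hub class
    have hone : ∀ u ∈ S, ∀ v ∈ S, ∀ j, F.κ u = some j → F.κ v = some j → u = v := by
      intro u hu v hv j hju hjv
      by_contra huv
      obtain ⟨i, -, j1, j2, hne, e1, e2, -⟩ := hadj u hu v hv huv
      exact hne ((pos_hub F e1 hju).trans (pos_hub F e2 hjv).symm)
    set A := S.filter fun u => F.κ u ≠ none with hA
    set B := S.filter fun u => F.κ u = none with hB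
    have hAB : A.card + B.card = S.card := by
      rw [add_comm, hA, hB]
      exact Finset.card_filter_add_card_filter_not (s := S) fun u => F.κ u = none
    have hAc : A.card ≤ c := by
      have h3 : A.card ≤ ((univ : Finset (Option (Fin c))).erase none).card := by
        refine Finset.card_le_card_of_injOn F.κ ?_ ?_
        · intro u hu
          rw [Finset.mem_coe, hA, mem_filter] at hu
          simp [hu.2]
        · intro u hu v hv huv
          rw [Finset.mem_coe, hA, mem_filter] at hu hv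
          obtain ⟨j, hj⟩ := Option.ne_none_iff_exists'.1 hu.2
          exact hone u hu.1 v hv.1 j hj (by rw [← huv]; exact hj)
      rw [Finset.card_erase_of_mem (mem_univ _), Finset.card_univ, Fintype.card_option,
        Fintype.card_fin] at h3
      omega
    have hcz : 2 ≤ c + z := by
      have h4 : 1 * 2 ^ 2 ≤ a * h ^ 2 := Nat.mul_le_mul ha (Nat.pow_le_pow_left hh 2)
      omega
    -- the padding vertices
    have hBpad : ∀ u ∈ B, ∃ v, F.pad v = u := by
      intro u hu
      rw [hB, mem_filter] at hu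
      obtain ⟨v, hv, hvu⟩ : ∃ v ∈ S, v ≠ u := by
        have h4 : 1 < S.card := by omega
        exact Finset.exists_mem_ne h4 u
      obtain ⟨i, -, j1, j2, -, e1, -, -⟩ := hadj u hu.1 v hv hvu.symm
      obtain ⟨k, -, hk⟩ := pos_pad F e1 hu.2
      exact ⟨p i k, hk.symm⟩
    set S0 : Finset (Fin N) := univ.filter fun v => F.pad v ∈ S with hS0
    have hS0B : B.card = S0.card := by
      rw [← Finset.card_image_of_injective S0 F.pinj]
      congr 1
      ext u
      rw [mem_image]
      constructor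
      · intro hu
        obtain ⟨v, hv⟩ := hBpad u hu
        refine ⟨v, ?_, hv⟩
        rw [hS0, mem_filter, hv]
        exact ⟨mem_univ _, (mem_filter.1 hu).1⟩
      · rintro ⟨v, hv, rfl⟩
        rw [hS0, mem_filter] at hv
        rw [hB, mem_filter]
        exact ⟨hv.2, F.pκ v⟩
    have hz0 : z ≤ S0.card := by omega
    obtain ⟨⟨i₀, hi₀⟩, hcov⟩ := hs.nobad.clique ha hh (by rw [Fintype.card_fin]; exact hz) S0
      (by rw [Fintype.card_fin]; exact hz0) (by
        intro u hu v hv huv
        rw [hS0, mem_filter] at hu hv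
        obtain ⟨i, hi, j1, j2, -, e1, e2, -⟩ := hadj _ hu.2 _ hv.2 fun e => huv (F.pinj e)
        obtain ⟨k, -, hk⟩ := pos_pad F e1 (F.pκ u)
        obtain ⟨l, -, hl⟩ := pos_pad F e2 (F.pκ v)
        exact ⟨⟨i, hi⟩, k, l, (F.pinj hk).symm, (F.pinj hl).symm⟩)
    have hsub : S0 ⊆ univ.image (p i₀) := by
      intro u hu
      obtain ⟨j, hj⟩ := hcov u hu
      exact Finset.mem_image.2 ⟨j, Finset.mem_univ j, hj⟩
    have hcardim : (univ.image (p i₀)).card = z := by
      rw [Finset.card_image_of_injective _ (hinj i₀ hi₀), Finset.card_univ, Fintype.card_fin]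
    have heq : S0 = univ.image (p i₀) :=
      Finset.eq_of_subset_of_card_le hsub (by rw [hcardim]; exact hz0)
    have hpadS : ∀ k, F.pad (p i₀ k) ∈ S := by
      intro k
      have h4 : p i₀ k ∈ S0 := by
        rw [heq]
        exact Finset.mem_image.2 ⟨k, Finset.mem_univ k, rfl⟩
      rw [hS0, mem_filter] at h4
      exact h4.2
    -- the hub vertices
    have hS0c : S0.card = z := by rw [heq, hcardim]
    have hAc' : A.card = c := by omega
    have hex : ∀ j : Fin c, ∃ u ∈ S, F.κ u = some j := by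
      intro j
      have h4 : A.image F.κ = (univ : Finset (Option (Fin c))).erase none := by
        refine Finset.eq_of_subset_of_card_le ?_ ?_
        · intro x hx
          obtain ⟨u, hu, rfl⟩ := mem_image.1 hx
          rw [hA, mem_filter] at hu
          simp [hu.2]
        · rw [Finset.card_image_of_injOn, hAc', Finset.card_erase_of_mem (mem_univ _),
            Finset.card_univ, Fintype.card_option, Fintype.card_fin]
          · omega
          · intro u hu v hv huv
            rw [Finset.mem_coe, hA, mem_filter] at hu hv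
            obtain ⟨j, hj⟩ := Option.ne_none_iff_exists'.1 hu.2
            exact hone u hu.1 v hv.1 j hj (by rw [← huv]; exact hj)
      have h5 : some j ∈ A.image F.κ := by
        rw [h4]
        simp
      obtain ⟨u, hu, hj⟩ := mem_image.1 h5
      rw [hA, mem_filter] at hu
      exact ⟨u, hu.1, hj⟩
    have hhub : ∀ j : Fin c, F.ν (q i₀) j ∈ S := by
      intro j
      obtain ⟨s, hsS, hsj⟩ := hex j
      -- for each padding position a gadget with both
      have hk : ∀ k : Fin z, ∃ i ∈ L, s = F.ν (q i) j ∧ ∃ l, p i l = p i₀ k := by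
        intro k
        have hne : s ≠ F.pad (p i₀ k) := by
          intro e
          have h4 := F.pκ (p i₀ k)
          rw [← e, hsj] at h4
          exact absurd h4 (by simp)
        obtain ⟨i, hi, j1, j2, -, e1, e2, -⟩ := hadj s hsS _ (hpadS k) hne
        have h4 := pos_hub F e1 hsj
        obtain ⟨l, -, hl⟩ := pos_pad F e2 (F.pκ _)
        subst h4
        exact ⟨i, hi, e1, l, (F.pinj hl).symm⟩
      choose f hfL hfs l hl using hk
      by_cases hi : ∃ k, f k = i₀
      · obtain ⟨k, hk⟩ := hi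
        rw [← hk, ← hfs k]
        exact hsS
      · push Not at hi
        exfalso
        have hfinj : Function.Injective f := by
          intro k k' hkk
          by_contra hne
          refine hs.nobad.share ⟨i₀, hi₀⟩ ⟨f k, hfL k⟩ k k' (l k) (l k')
            (fun e => hi k (congrArg Subtype.val e).symm) hne ?_ (hl k).symm ?_
          · intro e
            have h4 := hl k
            have h5 := hl k'
            rw [← hkk, ← e, h4] at h5
            exact hne (hinj i₀ hi₀ h5)
          · show p i₀ k' = p (f k) (l k')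
            rw [hkk]
            exact (hl k').symm
        have haz : a ≤ z := by
          refine le_trans ?_ hz
          exact Nat.le_mul_of_pos_right a (by positivity)
        refine hs.hub i₀ hi₀ j (fun x => f (Fin.castLE haz x)) (fun x => Fin.castLE haz x)
          (fun x => l (Fin.castLE haz x)) (fun x => hfL _) ?_ ?_ (fun x => hi _)
          (fun x => hl _) (fun x y => ?_)
        · exact hfinj.comp (Fin.castLE_injective haz)
        · exact Fin.castLE_injective haz
        · rw [← hfs, ← hfs]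
    refine ⟨i₀, hi₀, fun t => ?_⟩
    have hne : F.ν (q i₀) (F.a t) ≠ F.ν (q i₀) (F.b t) := by
      intro e
      have h4 := F.hκ (q i₀) (F.a t)
      rw [e, F.hκ] at h4
      exact F.hab t (Option.some.inj h4).symm
    obtain ⟨i, hi, j1, j2, -, e1, e2, hon⟩ := hadj _ (hhub (F.a t)) _ (hhub (F.b t)) hne
    have h4 := pos_hub F e1 (F.hκ _ _)
    have h5 := pos_hub F e2 (F.hκ _ _)
    subst h4 h5
    have h6 : F.ν (q i₀) (F.a t) = F.ν (q i) (F.a t) := e1
    have h7 : F.ν (q i₀) (F.b t) = F.ν (q i) (F.b t) := e2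
    have h8 : F.ed t (q i₀ t) = F.ed t (q i t) := by
      refine same_edge F ?_
      rw [← h6, ← h7]
      exact F.hed _ _
    have h9 : i₀ = i := hs.uniq t i₀ hi₀ i hi (F.inj t h8)
    rw [h9]
    exact hon t (Or.inl ⟨rfl, rfl⟩)
  · rintro ⟨i, hi, hY⟩
    refine ⟨F.R ∪ univ.image (F.vtx (q i) (p i)), ?_, ?_⟩
    · intro u hu v hv huv
      rw [gr_graph F L q p Y u v huv]
      simp only [Finset.coe_union, Set.mem_union, Finset.mem_coe, Finset.mem_image,
        Finset.mem_univ, true_and] at hu hv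
      rcases hu with hu | ⟨j, rfl⟩
      · exact Or.inl hu
      · rcases hv with hv | ⟨j', rfl⟩
        · exact Or.inr (Or.inl hv)
        · refine Or.inr (Or.inr ⟨i, hi, j, j', ?_, rfl, rfl, fun t _ => hY t⟩)
          rintro rfl
          exact huv rfl
    · have hdisj : Disjoint F.R (univ.image (F.vtx (q i) (p i))) := by
        rw [Finset.disjoint_left]
        intro u hu hu'
        obtain ⟨j, -, rfl⟩ := Finset.mem_image.1 hu'
        rcases j with j | k
        · have h1 := F.hRκ _ hu
          have h2 : F.κ (F.ν (q i) j) = none := h1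
          rw [F.hκ] at h2
          exact absurd h2 (by simp)
        · exact F.hRp _ hu
      rw [Finset.card_union_of_disjoint hdisj,
        Finset.card_image_of_injective _ (vtx_inj F (q i) (hinj i hi)), Finset.card_univ,
        Fintype.card_sum, Fintype.card_fin, Fintype.card_fin, hR]
      push_cast
      exact Real.real_sqrt_lt_nat_sqrt_succ

theorem indep (F : Frame n c m N) {L : Finset (Fin G)} {q : Fin G → Fin 2 → Fin m}
    {p : Fin G → Fin z → Fin N} (Y Y' : Fin 2 → Fin G → Bool) (e : EdgeVar n)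
    (h : F.gr L q p Y e ≠ F.gr L q p Y' e) :
    ∃ t, ∃ i ∈ L, Y t i ≠ Y' t i ∧ e = F.ed t (q i t) := by
  classical
  have key : ∀ (Y Y' : Fin 2 → Fin G → Bool), F.Adj L q p Y e.1.1 e.1.2 →
      ¬ F.Adj L q p Y' e.1.1 e.1.2 → ∃ t, ∃ i ∈ L, Y t i ≠ Y' t i ∧ e = F.ed t (q i t) := by
    intro Y Y' h1 h2
    rcases h1 with h1 | h1 | ⟨i, hi, j, j', hne, e1, e2, hon⟩
    · exact absurd (Or.inl h1) h2
    · exact absurd (Or.inr (Or.inl h1)) h2
    · have h3 : ¬ F.On (fun t => Y' t i) j j' := fun h3 =>
        h2 (Or.inr (Or.inr ⟨i, hi, j, j', hne, e1, e2, h3⟩))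
      unfold Frame.On at h3
      push Not at h3
      obtain ⟨t, ht, hY'⟩ := h3
      have hY := hon t ht
      refine ⟨t, i, hi, fun h4 => hY' (h4 ▸ hY), same_edge F ?_⟩
      rcases ht with ⟨rfl, rfl⟩ | ⟨rfl, rfl⟩
      · exact Or.inl (Prod.ext e1 e2)
      · exact Or.inr (Prod.ext e1 e2)
  by_cases h1 : F.Adj L q p Y e.1.1 e.1.2
  · by_cases h2 : F.Adj L q p Y' e.1.1 e.1.2
    · exact absurd (by simp [Frame.gr, h1, h2]) h
    · exact key Y Y' h1 h2
  · by_cases h2 : F.Adj L q p Y' e.1.1 e.1.2
    · obtain ⟨t, i, hi, h3, h4⟩ := key Y' Y h2 h1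
      exact ⟨t, i, hi, h3.symm, h4⟩
    · exact absurd (by simp [Frame.gr, h1, h2]) h

end Pool.Agent.RS
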