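import Mathlib
import Pool.Agent.Lib.MP_0a1b52_lc_RS.Defs

/-!
# Gadgets with control edges in a given set: fooling inputs
-/

set_option autoImplicit false

namespace Pool.Agent.RS

open Finset Pool.Agent.FP

/-- a set of words of which two different ones differ outside `Γ` -/
theorem fool_count {G : ℕ} (Γ : Finset (Fin G)) (S : Finset (Fin G → Bool))
    (h : ∀ x ∈ S, ∀ y ∈ S, (∀ i ∉ Γ, x i = y i) → x = y) : S.card * 2 ^ Γ.card ≤ 2 ^ G := by
  classical
  have h1 : S.card ≤ Fintype.card ({i // i ∉ Γ} → Bool) := by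
    rw [← Fintype.card_coe S]
    refine Fintype.card_le_of_injective (fun x => fun i : {i // i ∉ Γ} => x.1 i.1) ?_
    intro x y hxy
    exact Subtype.ext (h x.1 x.2 y.1 y.2 fun i hi => congrFun hxy ⟨i, hi⟩)
  have h2 : Fintype.card {i // i ∉ Γ} = G - Γ.card := by
    rw [Fintype.card_subtype_compl, Fintype.card_fin, Fintype.card_coe]
  rw [Fintype.card_fun, h2, Fintype.card_bool] at h1
  have h3 : Γ.card ≤ G := by
    have := Γ.card_le_univ
    rwa [Fintype.card_fin] at this
  calc S.card * 2 ^ Γ.card ≤ 2 ^ (G - Γ.card) * 2 ^ Γ.card := Nat.mul_le_mul_right _ h1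
    _ = 2 ^ G := by rw [← pow_add, Nat.sub_add_cancel h3]

variable {n c m N G z : ℕ}

open Classical in
theorem fool (F : Frame n c m N) {Λ : Finset (Fin G)} {q : Fin G → Fin 2 → Fin m}
    {p : Fin G → Fin z → Fin N}
    (hclq : ∀ Y : Fin 2 → Fin G → Bool, Clq (F.gr Λ q p Y) ↔ ∃ i ∈ Λ, ∀ t, Y t i = true)
    (hind : ∀ (Y Y' : Fin 2 → Fin G → Bool) (e : EdgeVar n), F.gr Λ q p Y e ≠ F.gr Λ q p Y' e →
      ∃ t, ∃ i ∈ Λ, Y t i ≠ Y' t i ∧ e = F.ed t (q i t))
    (X : Fin 2 → Finset (EdgeVar n)) (Γ : Finset (Fin G)) (hΓ : Γ ⊆ Λ)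
    (hX : ∀ i ∈ Γ, ∀ t, F.ed t (q i t) ∈ X t) (T : (EdgeVar n → Bool) → Prop)
    (hT : Pool.Agent.RK.StarK X T) (hTc : ∀ x, T x → ¬ Clq x) :
    (univ.filter fun x : Fin G → Bool => T (F.gr Λ q p (fo x))).card * 2 ^ Γ.card ≤ 2 ^ G := by
  refine fool_count Γ _ ?_
  intro x hx y hy hxy
  rw [mem_filter] at hx hy
  -- mixed inputs
  have key : ∀ x y : Fin G → Bool, T (F.gr Λ q p (fo x)) → T (F.gr Λ q p (fo y)) →
      (∀ i ∉ Γ, x i = y i) → ∀ i, x i = true → y i = true := by
    intro x y hx hy hxy i hi
    by_contra hyi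
    have hyi : y i = false := by simpa using hyi
    have hiΓ : i ∈ Γ := by
      by_contra hc
      rw [hxy i hc, hyi] at hi
      exact absurd hi (by simp)
    -- control edges 0 as for `x`, control edges 1 as for `y`
    set Y : Fin 2 → Fin G → Bool := fun t i => if t = 0 then x i else !y i with hY
    have hTu : T (F.gr Λ q p Y) := by
      refine hT _ (fun k => if k = 0 then F.gr Λ q p (fo y) else F.gr Λ q p (fo x)) ?_ ?_
      · intro k e he
        by_contra hne
        fin_cases k
        · simp only [Fin.zero_eta, if_true] at hne he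
          obtain ⟨t, j, hj, h1, h2⟩ := hind _ _ e hne
          fin_cases t
          · refine he ?_
            have hjΓ : j ∈ Γ := by
              by_contra hc
              refine h1 ?_
              simp [fo, hY, hxy j hc]
            rw [h2]
            exact hX j hjΓ 0
          · exact h1 (by simp [fo, hY])
        · simp only [Fin.mk_one, Fin.isValue, one_ne_zero, if_false] at hne he
          obtain ⟨t, j, hj, h1, h2⟩ := hind _ _ e hne
          fin_cases t
          · exact h1 (by simp [fo, hY])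
          · refine he ?_
            have hjΓ : j ∈ Γ := by
              by_contra hc
              refine h1 ?_
              simp [fo, hY, hxy j hc]
            rw [h2]
            exact hX j hjΓ 1
      · intro k
        fin_cases k
        · simpa using hy
        · simpa using hx
    refine hTc _ hTu ((hclq Y).2 ⟨i, hΓ hiΓ, fun t => ?_⟩)
    fin_cases t
    · simpa [hY] using hi
    · simpa [hY] using hyi
  funext i
  have h1 := key x y hx.2 hy.2 hxy i
  have h2 := key y x hy.2 hx.2 (fun i hi => (hxy i hi).symm) i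
  cases hxi : x i <;> cases hyi : y i <;> simp_all

end Pool.Agent.RS
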