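import Mathlib
import Pool.Agent.Lib.MP_0a1b52_lc_RS.Defs

/-!
# Every set of variables contains the control edges of a frame
-/

set_option autoImplicit false

namespace Pool.Agent.RS

open Finset Pool.Agent.FP

/-- averaging over the colourings of the vertices with four colours -/
private theorem avg4 {V ι : Type*} [Fintype V] (P : Finset ι) (w : ι → Fin 4 → V)
    (hw : ∀ i ∈ P, Function.Injective (w i)) :
    ∃ κ : V → Fin 4, P.card ≤ 256 * (P.filter fun i => ∀ j, κ (w i j) = j).card := by
  classical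
  have h1 : ∀ i ∈ P, Fintype.card (V → Fin 4) ≤
      256 * (univ.filter fun κ : V → Fin 4 => ∀ j, κ (w i j) = j).card := by
    intro i hi
    have h2 : (univ : Finset (V → Fin 4)).card ≤
        ((univ.filter fun κ : V → Fin 4 => ∀ j, κ (w i j) = j) ×ˢ
          (univ : Finset (Fin 4 → Fin 4))).card := by
      apply Finset.card_le_card_of_injOn
        (fun κ => (Function.extend (w i) id κ, fun j => κ (w i j)))
      · intro κ _
        simp [(hw i hi).extend_apply]
      · intro κ _ κ' _ h
        simp only [Prod.mk.injEq] at h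
        funext v
        by_cases hv : ∃ j, w i j = v
        · obtain ⟨j, rfl⟩ := hv
          exact congrFun h.2 j
        · have := congrFun h.1 v
          rwa [Function.extend_apply' _ _ _ hv, Function.extend_apply' _ _ _ hv] at this
    rw [card_product, card_univ, card_univ] at h2
    have h3 : Fintype.card (Fin 4 → Fin 4) = 256 := by simp
    rw [h3, mul_comm] at h2
    exact h2
  have h3 : ∑ κ : V → Fin 4, P.card ≤
      ∑ κ : V → Fin 4, 256 * (P.filter fun i => ∀ j, κ (w i j) = j).card := by
    rw [← Finset.mul_sum]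
    have h4 : ∑ κ : V → Fin 4, (P.filter fun i => ∀ j, κ (w i j) = j).card =
        ∑ i ∈ P, (univ.filter fun κ : V → Fin 4 => ∀ j, κ (w i j) = j).card := by
      simp only [Finset.card_filter]
      rw [Finset.sum_comm]
    rw [h4, Finset.mul_sum]
    calc ∑ κ : V → Fin 4, P.card = ∑ i ∈ P, Fintype.card (V → Fin 4) := by
          rw [Finset.sum_const, Finset.sum_const, smul_eq_mul, smul_eq_mul, card_univ, mul_comm]
      _ ≤ _ := Finset.sum_le_sum h1
  obtain ⟨κ, -, h⟩ := Finset.exists_le_of_sum_le ⟨fun _ => 0, mem_univ _⟩ h3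
  exact ⟨κ, h⟩

private theorem emb {α : Type*} (s : Finset α) (m : ℕ) (h : m ≤ s.card) :
    ∃ f : Fin m → α, Function.Injective f ∧ ∀ x, f x ∈ s := by
  refine ⟨fun x => (s.equivFin.symm (Fin.castLE h x)).1, ?_, fun x => (s.equivFin.symm _).2⟩
  intro x y hxy
  exact Fin.castLE_injective h (s.equivFin.symm.injective (Subtype.ext hxy))

private theorem few_aux {m : ℕ} (t : Fin 2) (S : Finset (Fin m)) :
    (univ.filter fun q : Fin 2 → Fin m => q t ∈ S).card ≤ S.card * m := by
  have h : (univ.filter fun q : Fin 2 → Fin m => q t ∈ S).card ≤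
      (S ×ˢ (univ : Finset (Fin m))).card := by
    apply Finset.card_le_card_of_injOn (fun q => (q t, q (1 - t)))
    · intro q hq
      simpa using hq
    · intro q _ q' _ h
      simp only [Prod.mk.injEq] at h
      funext s
      have hs : s = t ∨ s = 1 - t := by omega
      rcases hs with rfl | rfl
      · exact h.1
      · exact h.2
  rwa [card_product, card_univ, Fintype.card_fin] at h

/-- some residue class modulo 16 touches few edges -/
private theorem res {n : ℕ} (E : Finset (EdgeVar n)) : ∃ i < 16,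
    8 * (E.filter fun e => e.1.1.val % 16 = i ∨ e.1.2.val % 16 = i).card ≤ E.card := by
  have h1 : ∑ i ∈ range 16, 8 * (E.filter fun e => e.1.1.val % 16 = i ∨
      e.1.2.val % 16 = i).card ≤ ∑ i ∈ range 16, E.card := by
    rw [← Finset.mul_sum]
    have h2 : ∑ i ∈ range 16, (E.filter fun e => e.1.1.val % 16 = i ∨
        e.1.2.val % 16 = i).card ≤ E.card + E.card := by
      have e1 : E.card = ∑ i ∈ range 16, (E.filter fun e => e.1.1.val % 16 = i).card :=
        Finset.card_eq_sum_card_fiberwise (fun e _ => by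
          simpa using Nat.mod_lt _ (by norm_num))
      have e2 : E.card = ∑ i ∈ range 16, (E.filter fun e => e.1.2.val % 16 = i).card :=
        Finset.card_eq_sum_card_fiberwise (fun e _ => by
          simpa using Nat.mod_lt _ (by norm_num))
      calc _ ≤ ∑ i ∈ range 16, ((E.filter fun e => e.1.1.val % 16 = i).card +
            (E.filter fun e => e.1.2.val % 16 = i).card) := by
            apply Finset.sum_le_sum
            intro i _
            rw [Finset.filter_or]
            exact Finset.card_union_le _ _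
        _ = _ := by rw [Finset.sum_add_distrib, ← e1, ← e2]
    simp only [Finset.sum_const, card_range, smul_eq_mul]
    omega
  obtain ⟨i, hi, h⟩ := Finset.exists_le_of_sum_le ⟨0, by simp⟩ h1
  exact ⟨i, by simpa using hi, h⟩

/-- the place for the padding and the further vertices -/
private theorem place {n i : ℕ} (hi : i < 16) (N r : ℕ) (h : N + r ≤ n / 16) :
    ∃ (pad : Fin N → Fin n) (R : Finset (Fin n)), Function.Injective pad ∧ R.card = r ∧
      (∀ v, (pad v).val % 16 = i) ∧ (∀ u ∈ R, u.val % 16 = i) ∧ ∀ v, pad v ∉ R := by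
  have hp : ∀ k, k < N + r → 16 * k + i < n := fun k hk => by omega
  refine ⟨fun k => ⟨16 * k.val + i, hp _ (by omega)⟩,
    univ.image fun k : Fin r => ⟨16 * (N + k.val) + i, hp _ (by omega)⟩, ?_, ?_, ?_, ?_, ?_⟩
  · intro k k' h
    simp only [Fin.mk.injEq] at h
    exact Fin.ext (by omega)
  · rw [card_image_of_injective, card_univ, Fintype.card_fin]
    intro k k' h
    simp only [Fin.mk.injEq] at h
    exact Fin.ext (by omega)
  · intro k
    simp only
    omega
  · intro u hu
    simp only [mem_image, mem_univ, true_and] at hu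
    obtain ⟨k, rfl⟩ := hu
    simp only
    omega
  · intro k hk
    simp only [mem_image, mem_univ, true_and, Fin.mk.injEq] at hk
    obtain ⟨k', h⟩ := hk
    omega

/-- the frame of a star -/
private theorem star {n N i : ℕ} (v : Fin n) (hv : v.val % 16 ≠ i) (D : Finset (EdgeVar n))
    (hD : ∀ e ∈ D, e.1.1.val % 16 ≠ i ∧ e.1.2.val % 16 ≠ i)
    (hDv : ∀ e ∈ D, e.1.1 = v ∨ e.1.2 = v) (m : ℕ) (hm : 2 * m ≤ D.card)
    (pad : Fin N → Fin n) (R : Finset (Fin n)) (pinj : Function.Injective pad)
    (h1 : ∀ v, (pad v).val % 16 = i) (h2 : ∀ u ∈ R, u.val % 16 = i) (h3 : ∀ v, pad v ∉ R) :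
    ∃ F : Frame n 3 m N, F.R = R ∧ ∀ t x, F.ed t x ∈ D := by
  classical
  obtain ⟨f, finj, hf⟩ := emb D (2 * m) hm
  let o : EdgeVar n → Fin n := fun e => if e.1.1 = v then e.1.2 else e.1.1
  have ho : ∀ e ∈ D, e.1 = (v, o e) ∨ e.1 = (o e, v) := by
    intro e he
    rcases hDv e he with h | h
    · left
      simp only [o, if_pos h]
      exact Prod.ext h rfl
    · have h' : e.1.1 ≠ v := by
        have := e.2
        rw [h] at this
        exact this.ne
      right
      simp only [o, if_neg h']
      exact Prod.ext rfl h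
  have hov : ∀ e ∈ D, o e ≠ v := by
    intro e he h
    have := e.2
    rcases ho e he with h' | h' <;> rw [h', h] at this <;> exact lt_irrefl _ this
  have hinj : ∀ e ∈ D, ∀ e' ∈ D, o e = o e' → e = e' := by
    intro e he e' he' h
    have a1 := e.2
    have a2 := e'.2
    rcases ho e he with h1 | h1 <;> rcases ho e' he' with h2 | h2
    · exact Subtype.ext (by rw [h1, h2, h])
    · rw [h1] at a1
      rw [h2, ← h] at a2
      exact absurd a1 (lt_asymm a2)
    · rw [h1] at a1
      rw [h2, ← h] at a2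
      exact absurd a1 (lt_asymm a2)
    · exact Subtype.ext (by rw [h1, h2, h])
  have hoi : ∀ e ∈ D, (o e).val % 16 ≠ i := by
    intro e he
    have := hD e he
    rcases ho e he with h' | h' <;> rw [h'] at this
    · exact this.2
    · exact this.1
  let ed : Fin 2 → Fin m → EdgeVar n := fun t x => f ⟨t.val * m + x.val, by
    have := x.2
    have := t.2
    have : t.val * m ≤ 1 * m := Nat.mul_le_mul_right _ (by omega)
    omega⟩
  have hed : ∀ t x, ed t x ∈ D := fun t x => hf _
  have hedinj : ∀ t, Function.Injective (ed t) := by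
    intro t x y h
    have := congrArg Fin.val (finj h)
    simp only at this
    exact Fin.ext (by omega)
  have hne : ∀ x y, ed 0 x ≠ ed 1 y := by
    intro x y h
    have := congrArg Fin.val (finj h)
    have hx := x.2
    simp at this
    omega
  let κ : Fin n → Option (Fin 3) := fun u => if u = v then some 0 else
    if ∃ x, o (ed 0 x) = u then some 1 else if ∃ x, o (ed 1 x) = u then some 2 else none
  have κi : ∀ u : Fin n, u.val % 16 = i → κ u = none := by
    intro u hu
    have e1 : u ≠ v := fun h => hv (h ▸ hu)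
    have e2 : ¬ ∃ x, o (ed 0 x) = u := by
      rintro ⟨x, rfl⟩
      exact hoi _ (hed _ _) hu
    have e3 : ¬ ∃ x, o (ed 1 x) = u := by
      rintro ⟨x, rfl⟩
      exact hoi _ (hed _ _) hu
    simp only [κ, if_neg e1, if_neg e2, if_neg e3]
  have hmn : m ≤ n := by
    have := Fintype.card_le_of_injective (fun x => o (ed 0 x)) (fun x y h =>
      hedinj 0 (hinj _ (hed _ _) _ (hed _ _) h))
    simpa using this
  refine ⟨{ a := fun _ => 0, b := ![1, 2], hab := by decide, hne := by decide, κ := κ,
            ν := fun q => ![v, o (ed 0 (q 0)), o (ed 1 (q 1))],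
            hκ := ?_, ed := ed, hed := ?_, inj := hedinj, pad := pad, pinj := pinj,
            pκ := fun u => κi _ (h1 u), R := R, hRκ := fun u hu => κi _ (h2 u hu), hRp := h3,
            few := ?_ }, rfl, hed⟩
  · intro q j
    fin_cases j
    · simp [κ]
    · have e1 := hov _ (hed 0 (q 0))
      simp [κ, e1]
    · have e1 := hov _ (hed 1 (q 1))
      have e2 : ¬ ∃ x, o (ed 0 x) = o (ed 1 (q 1)) := by
        rintro ⟨x, hx⟩
        exact hne _ _ (hinj _ (hed _ _) _ (hed _ _) hx)
      have e3 : ∃ x, o (ed 1 x) = o (ed 1 (q 1)) := ⟨_, rfl⟩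
      show κ (o (ed 1 (q 1))) = some 2
      simp only [κ, if_neg e1, if_neg e2, if_pos e3]
  · intro q t
    fin_cases t
    · exact ho _ (hed 0 (q 0))
    · exact ho _ (hed 1 (q 1))
  · intro j u
    rw [min_eq_left hmn]
    refine le_trans (Finset.card_le_univ _) ?_
    simp [sq]

/-- the frame of a set of edges without a star -/
private theorem nostar {n N i : ℕ} (κ₀ : Fin n → Fin 4) (E₁ E₂ : Finset (EdgeVar n))
    (hE₁ : ∀ e ∈ E₁, κ₀ e.1.1 = 0 ∧ κ₀ e.1.2 = 1 ∧ e.1.1.val % 16 ≠ i ∧ e.1.2.val % 16 ≠ i)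
    (hE₂ : ∀ e ∈ E₂, κ₀ e.1.1 = 2 ∧ κ₀ e.1.2 = 3 ∧ e.1.1.val % 16 ≠ i ∧ e.1.2.val % 16 ≠ i)
    (m : ℕ) (hm₁ : m ≤ E₁.card) (hm₂ : m ≤ E₂.card)
    (pad : Fin N → Fin n) (R : Finset (Fin n)) (pinj : Function.Injective pad)
    (h1 : ∀ v, (pad v).val % 16 = i) (h2 : ∀ u ∈ R, u.val % 16 = i) (h3 : ∀ v, pad v ∉ R) :
    ∃ F : Frame n 4 m N, F.R = R ∧ ∀ t x, F.ed t x ∈ E₁ ∪ E₂ := by
  classical
  obtain ⟨f, finj, hf⟩ := emb E₁ m hm₁
  obtain ⟨g, ginj, hg⟩ := emb E₂ m hm₂
  let ed : Fin 2 → Fin m → EdgeVar n := ![f, g]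
  let κ : Fin n → Option (Fin 4) := fun u => if u.val % 16 = i then none else some (κ₀ u)
  have cnt : ∀ (h : Fin m → EdgeVar n), Function.Injective h → ∀ u : Fin n,
      (univ.filter fun x => (h x).1.1 = u).card ≤ min m n ∧
      (univ.filter fun x => (h x).1.2 = u).card ≤ min m n := by
    intro h hh u
    refine ⟨le_min ?_ ?_, le_min ?_ ?_⟩
    · exact (Finset.card_le_univ _).trans (by simp)
    · have : (univ.filter fun x => (h x).1.1 = u).card ≤ (univ : Finset (Fin n)).card := by
        apply Finset.card_le_card_of_injOn (fun x => (h x).1.2)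
        · intro x _
          simp
        · intro x hx y hy hxy
          simp only [coe_filter, mem_univ, true_and, Set.mem_ofPred_eq] at hx hy
          exact hh (Subtype.ext (Prod.ext (by rw [hx, hy]) hxy))
      simpa using this
    · exact (Finset.card_le_univ _).trans (by simp)
    · have : (univ.filter fun x => (h x).1.2 = u).card ≤ (univ : Finset (Fin n)).card := by
        apply Finset.card_le_card_of_injOn (fun x => (h x).1.1)
        · intro x _
          simp
        · intro x hx y hy hxy
          simp only [coe_filter, mem_univ, true_and, Set.mem_ofPred_eq] at hx hy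
          exact hh (Subtype.ext (Prod.ext hxy (by rw [hx, hy])))
      simpa using this
  refine ⟨{ a := ![0, 2], b := ![1, 3], hab := by decide, hne := by decide, κ := κ,
            ν := fun q => ![(f (q 0)).1.1, (f (q 0)).1.2, (g (q 1)).1.1, (g (q 1)).1.2],
            hκ := ?_, ed := ed, hed := ?_, inj := ?_, pad := pad, pinj := pinj,
            pκ := ?_, R := R, hRκ := ?_, hRp := h3,
            few := ?_ }, rfl, ?_⟩
  · intro q j
    have a1 := hE₁ _ (hf (q 0))
    have a2 := hE₂ _ (hg (q 1))
    fin_cases j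
    · show κ (f (q 0)).1.1 = some 0
      simp only [κ, if_neg a1.2.2.1, a1.1]
    · show κ (f (q 0)).1.2 = some 1
      simp only [κ, if_neg a1.2.2.2, a1.2.1]
    · show κ (g (q 1)).1.1 = some 2
      simp only [κ, if_neg a2.2.2.1, a2.1]
    · show κ (g (q 1)).1.2 = some 3
      simp only [κ, if_neg a2.2.2.2, a2.2.1]
  · intro q t
    fin_cases t
    · exact Or.inl rfl
    · exact Or.inl rfl
  · intro t
    fin_cases t
    · exact finj
    · exact ginj
  · intro v
    simp only [κ, if_pos (h1 v)]
  · intro u hu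
    simp only [κ, if_pos (h2 u hu)]
  · intro j u
    have key : ∀ (t : Fin 2) (p : Fin m → Prop) [DecidablePred p],
        (univ.filter p).card ≤ min m n →
        (univ.filter fun q : Fin 2 → Fin m => p (q t)).card ≤ min m n * m := by
      intro t p _ hp
      have := few_aux t (univ.filter p)
      simp only [mem_filter, mem_univ, true_and] at this
      exact this.trans (Nat.mul_le_mul_right _ hp)
    fin_cases j
    · exact key 0 (fun x => (f x).1.1 = u) (cnt f finj u).1
    · exact key 0 (fun x => (f x).1.2 = u) (cnt f finj u).2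
    · exact key 1 (fun x => (g x).1.1 = u) (cnt g ginj u).1
    · exact key 1 (fun x => (g x).1.2 = u) (cnt g ginj u).2
  · intro t x
    fin_cases t
    · exact mem_union_left _ (hf x)
    · exact mem_union_right _ (hg x)

/-- Every set of variables contains the control edges of a frame of proportional size. -/
theorem frame_exists : ∃ n₀ : ℕ, ∀ n ≥ n₀, ∀ E : Finset (EdgeVar n), 1000 ≤ E.card →
    ∀ r ≤ Nat.sqrt n + 1, ∃ (c m N : ℕ) (F : Frame n c m N), c ≤ 4 ∧ E.card ≤ 1000 * m ∧
      n ≤ 64 * N ∧ F.R.card = r ∧ ∀ t x, F.ed t x ∈ E := by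
  classical
  refine ⟨1000, fun n hn E hE r hr => ?_⟩
  have hs : Nat.sqrt n * Nat.sqrt n ≤ n := Nat.sqrt_le n
  have hs1 : 31 ≤ Nat.sqrt n := by
    rw [Nat.le_sqrt]
    omega
  have hr1 : r + n / 64 + 1 ≤ n / 16 := by
    have : 93 * Nat.sqrt n ≤ 3 * n := by nlinarith
    omega
  obtain ⟨i, hi, hres⟩ := res E
  obtain ⟨pad, R, pinj, hRc, h1, h2, h3⟩ := place (n := n) hi (n / 16 - r) r (by omega)
  have hN : n ≤ 64 * (n / 16 - r) := by omega
  set E' := E.filter fun e => ¬ (e.1.1.val % 16 = i ∨ e.1.2.val % 16 = i) with hE'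
  have hE'c : 7 * E.card ≤ 8 * E'.card := by
    have := Finset.card_filter_add_card_filter_not (s := E)
      (fun e => e.1.1.val % 16 = i ∨ e.1.2.val % 16 = i)
    rw [← hE'] at this
    omega
  have hE'i : ∀ e ∈ E', e.1.1.val % 16 ≠ i ∧ e.1.2.val % 16 ≠ i := by
    intro e he
    rw [hE', mem_filter] at he
    exact not_or.1 he.2
  have hE'E : E' ⊆ E := filter_subset _ _
  by_cases hst : ∃ v, E'.card < 4 * (E'.filter fun e => e.1.1 = v ∨ e.1.2 = v).card
  · obtain ⟨v, hv⟩ := hst
    set D := E'.filter fun e => e.1.1 = v ∨ e.1.2 = v with hD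
    have hDE : D ⊆ E' := filter_subset _ _
    have hvi : v.val % 16 ≠ i := by
      have : 0 < D.card := by omega
      obtain ⟨e, he⟩ := Finset.card_pos.1 this
      have h4 := hE'i e (hDE he)
      rw [hD, mem_filter] at he
      rcases he.2 with h | h <;> rw [h] at h4
      · exact h4.1
      · exact h4.2
    obtain ⟨F, hFR, hF⟩ := star v hvi D (fun e he => hE'i e (hDE he))
      (fun e he => (mem_filter.1 he).2) (D.card / 2) (by omega) pad R pinj h1 h2 h3
    refine ⟨3, D.card / 2, n / 16 - r, F, by norm_num, by omega, hN, by rw [hFR, hRc],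
      fun t x => hE'E (hDE (hF t x))⟩
  · push Not at hst
    set P := (E' ×ˢ E').filter fun p : EdgeVar n × EdgeVar n =>
      ¬ ((p.2.1.1 = p.1.1.1 ∨ p.2.1.2 = p.1.1.1) ∨ (p.2.1.1 = p.1.1.2 ∨ p.2.1.2 = p.1.1.2))
      with hP
    have hPc : E'.card * E'.card ≤ 2 * P.card := by
      have e1 : ∀ e ∈ E', E'.card ≤ 2 * (E'.filter fun f =>
          ¬ ((f.1.1 = e.1.1 ∨ f.1.2 = e.1.1) ∨ (f.1.1 = e.1.2 ∨ f.1.2 = e.1.2))).card := by
        intro e he
        have a1 := hst e.1.1
        have a2 := hst e.1.2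
        have a3 := Finset.card_filter_add_card_filter_not (s := E')
          (fun f => (f.1.1 = e.1.1 ∨ f.1.2 = e.1.1) ∨ (f.1.1 = e.1.2 ∨ f.1.2 = e.1.2))
        have a4 : (E'.filter fun f => (f.1.1 = e.1.1 ∨ f.1.2 = e.1.1) ∨
            (f.1.1 = e.1.2 ∨ f.1.2 = e.1.2)).card ≤
            (E'.filter fun f => f.1.1 = e.1.1 ∨ f.1.2 = e.1.1).card +
            (E'.filter fun f => f.1.1 = e.1.2 ∨ f.1.2 = e.1.2).card := by
          rw [Finset.filter_or]
          exact Finset.card_union_le _ _
        omega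
      have e2 : P.card = ∑ e ∈ E', (E'.filter fun f =>
          ¬ ((f.1.1 = e.1.1 ∨ f.1.2 = e.1.1) ∨ (f.1.1 = e.1.2 ∨ f.1.2 = e.1.2))).card := by
        rw [hP]
        simp only [Finset.card_filter]
        rw [Finset.sum_product]
      rw [e2, Finset.mul_sum]
      calc E'.card * E'.card = ∑ e ∈ E', E'.card := by simp
        _ ≤ _ := Finset.sum_le_sum e1
    obtain ⟨κ₀, hκ⟩ := avg4 P (fun p => ![p.1.1.1, p.1.1.2, p.2.1.1, p.2.1.2]) (by
      intro p hp
      rw [hP, mem_filter] at hp
      have b1 := p.1.2.ne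
      have b2 := p.2.2.ne
      have b3 := hp.2
      push Not at b3
      intro x y hxy
      fin_cases x <;> fin_cases y <;> simp_all)
    set E₁ := E'.filter fun e => κ₀ e.1.1 = 0 ∧ κ₀ e.1.2 = 1 with hE₁
    set E₂ := E'.filter fun e => κ₀ e.1.1 = 2 ∧ κ₀ e.1.2 = 3 with hE₂
    have hprod : P.card ≤ 256 * (E₁.card * E₂.card) := by
      refine hκ.trans (Nat.mul_le_mul_left _ ?_)
      rw [← card_product]
      apply card_le_card
      intro p hp
      rw [mem_filter] at hp
      obtain ⟨hp1, hp2⟩ := hp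
      rw [hP, mem_filter, mem_product] at hp1
      exact mem_product.2 ⟨mem_filter.2 ⟨hp1.1.1, hp2 0, hp2 1⟩,
        mem_filter.2 ⟨hp1.1.2, hp2 2, hp2 3⟩⟩
    have c1 : E₁.card ≤ E'.card := card_le_card (filter_subset _ _)
    have c2 : E₂.card ≤ E'.card := card_le_card (filter_subset _ _)
    have c0 : 0 < E'.card := by omega
    have d1 : E'.card ≤ 512 * E₁.card := by
      by_contra h
      push Not at h
      have : E₁.card * E₂.card ≤ E₁.card * E'.card := Nat.mul_le_mul_left _ c2
      nlinarith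
    have d2 : E'.card ≤ 512 * E₂.card := by
      by_contra h
      push Not at h
      have : E₁.card * E₂.card ≤ E'.card * E₂.card := Nat.mul_le_mul_right _ c1
      nlinarith
    obtain ⟨F, hFR, hF⟩ := nostar (i := i) κ₀ E₁ E₂
      (fun e he => ⟨(mem_filter.1 he).2.1, (mem_filter.1 he).2.2,
        hE'i e (mem_filter.1 he).1⟩)
      (fun e he => ⟨(mem_filter.1 he).2.1, (mem_filter.1 he).2.2,
        hE'i e (mem_filter.1 he).1⟩)
      (min E₁.card E₂.card) (min_le_left _ _) (min_le_right _ _) pad R pinj h1 h2 h3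
    refine ⟨4, min E₁.card E₂.card, n / 16 - r, F, le_rfl, by omega, hN, by rw [hFR, hRc],
      fun t x => ?_⟩
    rcases mem_union.1 (hF t x) with h | h
    · exact hE'E (mem_filter.1 h).1
    · exact hE'E (mem_filter.1 h).1

end Pool.Agent.RS
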