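import Mathlib
import Pool.Agent.Lib.MP_0a1b52_lc_RS.Defs
import Pool.Agent.Lib.MP_0a1b52_lc_RP.Count

/-!
# Gadgets with control edges in a given set: a frame with four hub positions
-/

set_option autoImplicit false

namespace Pool.Agent.RS

open Finset Pool.Agent.FP

/-- the ends of `e` have the classes `α`, `β` -/
private def FPCls {n : ℕ} (k : Fin n → Fin 4) (α β : Fin 4) (e : EdgeVar n) : Prop :=
  (k e.1.1 = α ∧ k e.1.2 = β) ∨ (k e.1.1 = β ∧ k e.1.2 = α)

private def FPDis {n : ℕ} (e f : EdgeVar n) : Prop :=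
  ¬ (e.1.1 = f.1.1 ∨ e.1.1 = f.1.2) ∧ ¬ (e.1.2 = f.1.1 ∨ e.1.2 = f.1.2)

open Classical in
private theorem fp_count {n : ℕ} (e f : EdgeVar n) (h : FPDis e f) :
    4 * 4 ^ n ≤ 256 * (univ.filter fun k : Fin n → Fin 4 =>
      FPCls k 0 1 e ∧ FPCls k 2 3 f).card := by
  set c : Fin 4 → Fin n := ![e.1.1, e.1.2, f.1.1, f.1.2] with hc
  have hinj : Function.Injective c := by
    have he := ne_of_lt e.2
    have hf := ne_of_lt f.2
    have h1 := h.1
    have h2 := h.2
    push Not at h1 h2
    intro x y hxy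
    fin_cases x <;> fin_cases y <;> simp [hc] at hxy ⊢ <;>
      first
        | exact he hxy
        | exact he hxy.symm
        | exact hf hxy
        | exact hf hxy.symm
        | exact h1.1 hxy
        | exact h1.1 hxy.symm
        | exact h1.2 hxy
        | exact h1.2 hxy.symm
        | exact h2.1 hxy
        | exact h2.1 hxy.symm
        | exact h2.2 hxy
        | exact h2.2 hxy.symm
  set Y : Finset (Fin 4 → Fin 4) := {![0, 1, 2, 3], ![1, 0, 2, 3], ![0, 1, 3, 2], ![1, 0, 3, 2]}
    with hY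
  have hYc : Y.card = 4 := by
    rw [hY]; decide
  have hsub : (univ.filter fun k : Fin n → Fin 4 => (fun a => k (c a)) ∈ Y) ⊆
      (univ.filter fun k : Fin n → Fin 4 => FPCls k 0 1 e ∧ FPCls k 2 3 f) := by
    intro k hk
    simp only [mem_filter, mem_univ, true_and] at hk ⊢
    have key : ∀ y : Fin 4 → Fin 4, (fun a => k (c a)) = y →
        k e.1.1 = y 0 ∧ k e.1.2 = y 1 ∧ k f.1.1 = y 2 ∧ k f.1.2 = y 3 := by
      intro y hy
      exact ⟨congrFun hy 0, congrFun hy 1, congrFun hy 2, congrFun hy 3⟩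
    simp only [hY, mem_insert, mem_singleton] at hk
    rcases hk with hk | hk | hk | hk
    · obtain ⟨a1, a2, a3, a4⟩ := key _ hk
      exact ⟨Or.inl ⟨a1, a2⟩, Or.inl ⟨a3, a4⟩⟩
    · obtain ⟨a1, a2, a3, a4⟩ := key _ hk
      exact ⟨Or.inr ⟨a1, a2⟩, Or.inl ⟨a3, a4⟩⟩
    · obtain ⟨a1, a2, a3, a4⟩ := key _ hk
      exact ⟨Or.inl ⟨a1, a2⟩, Or.inr ⟨a3, a4⟩⟩
    · obtain ⟨a1, a2, a3, a4⟩ := key _ hk
      exact ⟨Or.inr ⟨a1, a2⟩, Or.inr ⟨a3, a4⟩⟩
  have hfib := Finset.card_eq_sum_card_fiberwise
    (s := univ.filter fun k : Fin n → Fin 4 => (fun a => k (c a)) ∈ Y) (t := Y)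
    (f := fun k => fun a => k (c a)) (by
      intro k hk
      simpa using hk)
  have hone : ∀ y ∈ Y, ((univ.filter fun k : Fin n → Fin 4 => (fun a => k (c a)) ∈ Y).filter
      fun k => (fun a => k (c a)) = y).card * 256 = 4 ^ n := by
    intro y hy
    have h3 := RP.card_prescribed 4 c hinj y
    rw [Fintype.card_fin, Fintype.card_fin] at h3
    have h4 : ((univ.filter fun k : Fin n → Fin 4 => (fun a => k (c a)) ∈ Y).filter
        fun k => (fun a => k (c a)) = y) =
        univ.filter fun φ : Fin n → Fin 4 => ∀ a, φ (c a) = y a := by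
      ext k
      simp only [mem_filter, mem_univ, true_and]
      constructor
      · rintro ⟨_, h5⟩ a
        exact congrFun h5 a
      · intro h5
        have h6 : (fun a => k (c a)) = y := funext h5
        exact ⟨by rw [h6]; exact hy, h6⟩
    have h8 : (4 : ℕ) ^ 4 = 256 := by norm_num
    rw [h8] at h3
    rw [h4]
    convert h3 using 3
    ext k
    simp only [mem_filter, mem_univ, true_and]
  have hsum : (univ.filter fun k : Fin n → Fin 4 => (fun a => k (c a)) ∈ Y).card * 256 =
      4 * 4 ^ n := by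
    rw [hfib, Finset.sum_mul]
    refine (Finset.sum_congr rfl hone).trans ?_
    rw [Finset.sum_const, hYc, smul_eq_mul]
  have h7 := Finset.card_le_card hsub
  omega

open Classical in
private theorem fp_disj {n : ℕ} (E : Finset (EdgeVar n))
    (hdeg : ∀ v, 4 * (E.filter fun e => v = e.1.1 ∨ v = e.1.2).card ≤ E.card) :
    E.card * E.card ≤ 2 * ((E ×ˢ E).filter fun p => FPDis p.1 p.2).card := by
  have h1 : ((E ×ˢ E).filter fun p => FPDis p.1 p.2).card =
      ∑ e ∈ E, (E.filter fun f => FPDis e f).card := by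
    rw [Finset.card_filter, Finset.sum_product]
    exact Finset.sum_congr rfl fun e _ => (Finset.card_filter _ _).symm
  rw [h1, Finset.mul_sum]
  have h2 : E.card * E.card = ∑ e ∈ E, E.card := by
    rw [Finset.sum_const, smul_eq_mul]
  rw [h2]
  refine Finset.sum_le_sum fun e _ => ?_
  have h3 := Finset.card_filter_add_card_filter_not (s := E) (fun f => FPDis e f)
  have h4 : (E.filter fun f => ¬ FPDis e f) ⊆
      (E.filter fun f => e.1.1 = f.1.1 ∨ e.1.1 = f.1.2) ∪
      (E.filter fun f => e.1.2 = f.1.1 ∨ e.1.2 = f.1.2) := by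
    intro f hf
    simp only [mem_filter, mem_union] at hf ⊢
    obtain ⟨hf1, hf2⟩ := hf
    by_cases h5 : (e.1.1 = f.1.1 ∨ e.1.1 = f.1.2)
    · exact Or.inl ⟨hf1, h5⟩
    · right
      refine ⟨hf1, ?_⟩
      by_contra h6
      exact hf2 ⟨h5, h6⟩
  have h5 := (Finset.card_le_card h4).trans (Finset.card_union_le _ _)
  have h6 := hdeg e.1.1
  have h7 := hdeg e.1.2
  omega

open Classical in
private theorem fp_avg {n : ℕ} (E : Finset (EdgeVar n))
    (hdeg : ∀ v, 4 * (E.filter fun e => v = e.1.1 ∨ v = e.1.2).card ≤ E.card) :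
    ∃ k : Fin n → Fin 4, E.card * E.card ≤
      128 * ((E.filter fun e => FPCls k 0 1 e).card * (E.filter fun e => FPCls k 2 3 e).card) := by
  by_contra hcon
  push Not at hcon
  have h1 : ∑ k : Fin n → Fin 4, 128 * ((E.filter fun e => FPCls k 0 1 e).card *
      (E.filter fun e => FPCls k 2 3 e).card) < ∑ k : Fin n → Fin 4, E.card * E.card :=
    Finset.sum_lt_sum_of_nonempty univ_nonempty fun k _ => hcon k
  have h2 : ∑ k : Fin n → Fin 4, E.card * E.card = 4 ^ n * (E.card * E.card) := by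
    rw [Finset.sum_const, smul_eq_mul, Finset.card_univ, Fintype.card_fun, Fintype.card_fin,
      Fintype.card_fin]
  have h3 : ∀ k : Fin n → Fin 4, (E.filter fun e => FPCls k 0 1 e).card *
      (E.filter fun e => FPCls k 2 3 e).card =
      ((E ×ˢ E).filter fun p => FPCls k 0 1 p.1 ∧ FPCls k 2 3 p.2).card := by
    intro k
    rw [← Finset.card_product, Finset.filter_product]
  have h4 : ∑ k : Fin n → Fin 4, ((E ×ˢ E).filter fun p =>
      FPCls k 0 1 p.1 ∧ FPCls k 2 3 p.2).card =
      ∑ p ∈ E ×ˢ E, (univ.filter fun k : Fin n → Fin 4 =>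
        FPCls k 0 1 p.1 ∧ FPCls k 2 3 p.2).card := by
    simp only [Finset.card_filter]
    exact Finset.sum_comm
  rw [← Finset.mul_sum, Finset.sum_congr rfl (fun k _ => h3 k), h4, h2] at h1
  have h5 : ((E ×ˢ E).filter fun p => FPDis p.1 p.2).card * (4 * 4 ^ n) ≤
      256 * ∑ p ∈ E ×ˢ E, (univ.filter fun k : Fin n → Fin 4 =>
        FPCls k 0 1 p.1 ∧ FPCls k 2 3 p.2).card := by
    rw [Finset.mul_sum, ← smul_eq_mul, ← Finset.sum_const]
    refine (Finset.sum_le_sum fun p hp => ?_).trans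
      (Finset.sum_le_sum_of_subset (Finset.filter_subset _ _))
    exact fp_count p.1 p.2 (Finset.mem_filter.mp hp).2
  have h6 := fp_disj E hdeg
  have h7 : E.card * E.card * (4 * 4 ^ n) ≤
      2 * ((E ×ˢ E).filter fun p => FPDis p.1 p.2).card * (4 * 4 ^ n) :=
    Nat.mul_le_mul_right _ h6
  nlinarith [h1, h5, h7]

private theorem fp_ends {n : ℕ} (k : Fin n → Fin 4) (α β : Fin 4) (e : EdgeVar n)
    (h : FPCls k α β e) :
    ∃ x y : Fin n, k x = α ∧ k y = β ∧ (e.1 = (x, y) ∨ e.1 = (y, x)) := by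
  rcases h with h | h
  · exact ⟨e.1.1, e.1.2, h.1, h.2, Or.inl rfl⟩
  · exact ⟨e.1.2, e.1.1, h.2, h.1, Or.inr rfl⟩

open Classical in
private theorem fp_cnt {n m : ℕ} (A B : Fin m → Fin n) (e : Fin m → EdgeVar n)
    (he : Function.Injective e) (hab : ∀ x, (e x).1 = (A x, B x) ∨ (e x).1 = (B x, A x))
    (u : Fin n) : (univ.filter fun x => A x = u).card ≤ min m n := by
  refine le_min ?_ ?_
  · exact (Finset.card_filter_le _ _).trans (by rw [Finset.card_univ, Fintype.card_fin])
  · have h1 : (univ.filter fun x => A x = u).card ≤ (univ : Finset (Fin n)).card := by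
      apply Finset.card_le_card_of_injOn B (fun x _ => Finset.mem_coe.2 (Finset.mem_univ _))
      intro x hx y hy hxy
      simp only [coe_filter, mem_univ, true_and, Set.mem_ofPred_eq] at hx hy
      apply he
      apply Subtype.ext
      have lx := (e x).2
      have ly := (e y).2
      rcases hab x with h2 | h2 <;> rcases hab y with h3 | h3
      · rw [h2, h3, hx, hy, hxy]
      · exfalso
        rw [h2, hx] at lx
        rw [h3, hy] at ly
        simp only at lx ly
        rw [hxy] at lx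
        exact lt_asymm lx ly
      · exfalso
        rw [h2, hx] at lx
        rw [h3, hy] at ly
        simp only at lx ly
        rw [hxy] at lx
        exact lt_asymm lx ly
      · rw [h2, h3, hx, hy, hxy]
    rwa [Finset.card_univ, Fintype.card_fin] at h1

private theorem fp_few {m b : ℕ} (t : Fin 2) (P : Fin m → Prop) [DecidablePred P]
    (hP : (univ.filter fun x => P x).card ≤ b) :
    (univ.filter fun q : Fin 2 → Fin m => P (q t)).card ≤ b * m := by
  have h1 : (univ.filter fun q : Fin 2 → Fin m => P (q t)) =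
      Fintype.piFinset fun s : Fin 2 => if s = t then (univ.filter fun x => P x) else univ := by
    ext q
    simp only [mem_filter, mem_univ, true_and, Fintype.mem_piFinset]
    constructor
    · intro h s
      by_cases hs : s = t
      · rw [if_pos hs, hs]
        simpa using h
      · rw [if_neg hs]
        exact mem_univ _
    · intro h
      have h2 := h t
      rw [if_pos rfl] at h2
      simpa using h2
  rw [h1, Fintype.card_piFinset, Fin.prod_univ_two]
  fin_cases t
  · simp only [Fin.zero_eta, Fin.isValue, if_true]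
    rw [if_neg (by decide), Finset.card_univ, Fintype.card_fin]
    exact Nat.mul_le_mul_right _ hP
  · simp only [Fin.mk_one, Fin.isValue, if_true]
    rw [if_neg (by decide), Finset.card_univ, Fintype.card_fin, mul_comm]
    exact Nat.mul_le_mul_right _ hP

theorem frame_pairs {n N : ℕ} (pad : Fin N → Fin n) (pinj : Function.Injective pad)
    (R : Finset (Fin n)) (hRp : ∀ v, pad v ∉ R) (E : Finset (EdgeVar n))
    (hE : ∀ e ∈ E, ∀ u, (u = e.1.1 ∨ u = e.1.2) → u ∉ R ∧ ∀ w, pad w ≠ u)
    (hdeg : ∀ v, 4 * (E.filter fun e => v = e.1.1 ∨ v = e.1.2).card ≤ E.card)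
    (m : ℕ) (hm : 128 * m ≤ E.card) :
    ∃ F : Frame n 4 m N, F.R = R ∧ ∀ t x, F.ed t x ∈ E := by
  classical
  obtain ⟨k, hk⟩ := fp_avg E (fun v => by convert hdeg v using 3)
  have hE0 : m ≤ (E.filter fun e => FPCls k 0 1 e).card := by
    rcases Nat.eq_zero_or_pos E.card with h0 | h0
    · omega
    · have h1 : (E.filter fun e => FPCls k 2 3 e).card ≤ E.card := Finset.card_filter_le _ _
      have h2 : E.card * E.card ≤ E.card * (128 * (E.filter fun e => FPCls k 0 1 e).card) := by
        refine hk.trans ?_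
        have h3 := Nat.mul_le_mul_left (128 * (E.filter fun e => FPCls k 0 1 e).card) h1
        calc _ = 128 * (E.filter fun e => FPCls k 0 1 e).card *
              (E.filter fun e => FPCls k 2 3 e).card := by ring
          _ ≤ _ := h3
          _ = _ := by ring
      have h3 := Nat.le_of_mul_le_mul_left h2 h0
      omega
  have hE1 : m ≤ (E.filter fun e => FPCls k 2 3 e).card := by
    rcases Nat.eq_zero_or_pos E.card with h0 | h0
    · omega
    · have h1 : (E.filter fun e => FPCls k 0 1 e).card ≤ E.card := Finset.card_filter_le _ _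
      have h2 : E.card * E.card ≤ E.card * (128 * (E.filter fun e => FPCls k 2 3 e).card) := by
        refine hk.trans ?_
        have h3 := Nat.mul_le_mul_left (128 * (E.filter fun e => FPCls k 2 3 e).card) h1
        calc _ = 128 * (E.filter fun e => FPCls k 2 3 e).card *
              (E.filter fun e => FPCls k 0 1 e).card := by ring
          _ ≤ _ := h3
          _ = _ := by ring
      have h3 := Nat.le_of_mul_le_mul_left h2 h0
      omega
  have hex : ∀ (α β : Fin 4), m ≤ (E.filter fun e => FPCls k α β e).card →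
      ∃ (ed : Fin m → EdgeVar n) (A B : Fin m → Fin n), Function.Injective ed ∧
        (∀ x, ed x ∈ E) ∧ (∀ x, k (A x) = α) ∧ (∀ x, k (B x) = β) ∧
        ∀ x, (ed x).1 = (A x, B x) ∨ (ed x).1 = (B x, A x) := by
    intro α β h
    obtain ⟨S, hS, hSc⟩ := Finset.exists_subset_card_eq h
    have hmem : ∀ x : Fin m, ((Finset.equivFinOfCardEq hSc).symm x).1 ∈ E ∧
        FPCls k α β ((Finset.equivFinOfCardEq hSc).symm x).1 := fun x =>
      Finset.mem_filter.mp (hS ((Finset.equivFinOfCardEq hSc).symm x).2)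
    choose A B hA hB hAB using fun x => fp_ends k α β _ (hmem x).2
    exact ⟨fun x => ((Finset.equivFinOfCardEq hSc).symm x).1, A, B,
      Subtype.val_injective.comp (Equiv.injective _), fun x => (hmem x).1, hA, hB, hAB⟩
  obtain ⟨e0, A0, B0, inj0, mem0, kA0, kB0, AB0⟩ := hex 0 1 hE0
  obtain ⟨e1, A1, B1, inj1, mem1, kA1, kB1, AB1⟩ := hex 2 3 hE1
  have hend : ∀ (u : Fin n), (∃ e ∈ E, u = e.1.1 ∨ u = e.1.2) → ¬ (u ∈ R ∨ ∃ w, pad w = u) := by
    rintro u ⟨e, he, hu⟩ h
    obtain ⟨h1, h2⟩ := hE e he u hu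
    rcases h with h | ⟨w, hw⟩
    · exact h1 h
    · exact h2 w hw
  have hA0 : ∀ x, ¬ (A0 x ∈ R ∨ ∃ w, pad w = A0 x) := fun x =>
    hend _ ⟨e0 x, mem0 x, by rcases AB0 x with h | h <;> rw [h] <;> simp⟩
  have hB0 : ∀ x, ¬ (B0 x ∈ R ∨ ∃ w, pad w = B0 x) := fun x =>
    hend _ ⟨e0 x, mem0 x, by rcases AB0 x with h | h <;> rw [h] <;> simp⟩
  have hA1 : ∀ x, ¬ (A1 x ∈ R ∨ ∃ w, pad w = A1 x) := fun x =>
    hend _ ⟨e1 x, mem1 x, by rcases AB1 x with h | h <;> rw [h] <;> simp⟩
  have hB1 : ∀ x, ¬ (B1 x ∈ R ∨ ∃ w, pad w = B1 x) := fun x =>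
    hend _ ⟨e1 x, mem1 x, by rcases AB1 x with h | h <;> rw [h] <;> simp⟩
  refine ⟨{
    a := ![0, 2]
    b := ![1, 3]
    hab := by decide
    hne := by decide
    κ := fun u => if u ∈ R ∨ ∃ w, pad w = u then none else some (k u)
    ν := fun q => ![A0 (q 0), B0 (q 0), A1 (q 1), B1 (q 1)]
    hκ := ?_
    ed := ![e0, e1]
    hed := ?_
    inj := ?_
    pad := pad
    pinj := pinj
    pκ := ?_
    R := R
    hRκ := ?_
    hRp := hRp
    few := ?_ }, rfl, ?_⟩
  · intro q j
    fin_cases j
    · simpa [kA0] using hA0 (q 0)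
    · simpa [kB0] using hB0 (q 0)
    · simpa [kA1] using hA1 (q 1)
    · simpa [kB1] using hB1 (q 1)
  · intro q t
    fin_cases t
    · exact AB0 (q 0)
    · exact AB1 (q 1)
  · intro t
    fin_cases t
    · exact inj0
    · exact inj1
  · intro v
    simp
  · intro u hu
    simp [hu]
  · intro j u
    fin_cases j
    · have h := fp_few 0 (fun x => A0 x = u) (fp_cnt A0 B0 e0 inj0 AB0 u)
      exact h
    · have h := fp_few 0 (fun x => B0 x = u)
        (fp_cnt B0 A0 e0 inj0 (fun x => (AB0 x).symm) u)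
      exact h
    · have h := fp_few 1 (fun x => A1 x = u) (fp_cnt A1 B1 e1 inj1 AB1 u)
      exact h
    · have h := fp_few 1 (fun x => B1 x = u)
        (fp_cnt B1 A1 e1 inj1 (fun x => (AB1 x).symm) u)
      exact h
  · intro t x
    fin_cases t
    · exact mem0 x
    · exact mem1 x

end Pool.Agent.RS
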