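import Mathlib
import Pool.Agent.Lib.MP_0a1b52_lc_RS.Defs

/-!
# Gadgets with control edges in a given set: a frame with three hub positions
-/

set_option autoImplicit false

namespace Pool.Agent.RS

open Finset Pool.Agent.FP

/-- the other end of an edge of a star with the centre `v` -/
private def h1_oth {n : ℕ} (v : Fin n) (e : EdgeVar n) : Fin n :=
  if e.1.1 = v then e.1.2 else e.1.1

private lemma h1_oth_spec {n : ℕ} {v : Fin n} {e : EdgeVar n} (h : v = e.1.1 ∨ v = e.1.2) :
    e.1 = (v, h1_oth v e) ∨ e.1 = (h1_oth v e, v) := by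
  unfold h1_oth
  rcases h with h | h
  · left
    rw [if_pos h.symm, h]
  · right
    have h1 : e.1.1 ≠ v := by
      rw [h]
      exact ne_of_lt e.2
    rw [if_neg h1, h]

private lemma h1_oth_ne {n : ℕ} {v : Fin n} {e : EdgeVar n} (h : v = e.1.1 ∨ v = e.1.2) :
    h1_oth v e ≠ v := by
  intro h2
  have h3 := e.2
  rcases h1_oth_spec h with h1 | h1 <;> rw [h1, h2] at h3 <;> exact lt_irrefl _ h3

private lemma h1_oth_inj {n : ℕ} {v : Fin n} {e e' : EdgeVar n} (h : v = e.1.1 ∨ v = e.1.2)
    (h' : v = e'.1.1 ∨ v = e'.1.2) (ho : h1_oth v e = h1_oth v e') : e = e' := by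
  have h3 := e.2
  have h4 := e'.2
  apply Subtype.ext
  rcases h1_oth_spec h with h1 | h1 <;> rcases h1_oth_spec h' with h2 | h2
  · rw [h1, h2, ho]
  · rw [h1] at h3
    rw [h2] at h4
    rw [ho] at h3
    exact absurd h3 (not_lt_of_gt h4)
  · rw [h1] at h3
    rw [h2] at h4
    rw [ho] at h3
    exact absurd h3 (not_lt_of_gt h4)
  · rw [h1, h2, ho]

private lemma h1_few {m : ℕ} (t : Fin 2) (x : Fin m) :
    (univ.filter fun q : Fin 2 → Fin m => q t = x).card ≤ m := by
  have h : (univ.filter fun q : Fin 2 → Fin m => q t = x).card ≤ (univ : Finset (Fin m)).card := by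
    apply Finset.card_le_card_of_injOn (fun q => q (1 - t)) (fun _ _ => by simp)
    intro q hq q' hq' hqq
    simp only [coe_filter, mem_univ, true_and, Set.mem_ofPred_eq] at hq hq'
    funext s
    by_cases hs : s = t
    · rw [hs, hq, hq']
    · have h1 : s = 1 - t := by
        fin_cases s <;> fin_cases t <;> simp_all
      rw [h1]
      exact hqq
  simpa using h

theorem frame_star {n N : ℕ} (pad : Fin N → Fin n) (pinj : Function.Injective pad)
    (R : Finset (Fin n)) (hRp : ∀ v, pad v ∉ R) (E : Finset (EdgeVar n))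
    (hE : ∀ e ∈ E, ∀ u, (u = e.1.1 ∨ u = e.1.2) → u ∉ R ∧ ∀ w, pad w ≠ u)
    (v : Fin n) (hv : ∀ e ∈ E, v = e.1.1 ∨ v = e.1.2) (m : ℕ) (hm : 2 * m ≤ E.card) :
    ∃ F : Frame n 3 m N, F.R = R ∧ ∀ t x, F.ed t x ∈ E := by
  classical
  have hab : ∀ t : Fin 2, (fun _ : Fin 2 => (0 : Fin 3)) t ≠ ![1, 2] t := by decide
  have hne : s((fun _ : Fin 2 => (0 : Fin 3)) 0, ![1, 2] 0) ≠
      s((fun _ : Fin 2 => (0 : Fin 3)) 1, ![1, 2] 1) := by decide
  rcases Nat.eq_zero_or_pos m with rfl | hmp
  · exact ⟨{ a := fun _ => 0, b := ![1, 2], hab := hab, hne := hne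
             κ := fun _ => none
             ν := fun q => (q 0).elim0
             hκ := fun q => (q 0).elim0
             ed := fun _ x => x.elim0
             hed := fun q => (q 0).elim0
             inj := fun _ x => x.elim0
             pad := pad, pinj := pinj, pκ := fun _ => rfl
             R := R, hRκ := fun _ _ => rfl, hRp := hRp
             few := fun j u => by
               rw [Finset.card_eq_zero.mpr]
               · exact Nat.zero_le _
               · apply Finset.eq_empty_of_forall_notMem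
                 intro q
                 exact (q 0).elim0 }, rfl, fun _ x => x.elim0⟩
  obtain ⟨g⟩ : Nonempty (Fin 2 × Fin m ↪ {e // e ∈ E}) := by
    apply Function.Embedding.nonempty_of_card_le
    simpa using hm
  have hg : ∀ t x, (g (t, x)).1 ∈ E := fun t x => (g (t, x)).2
  have hgv : ∀ t x, v = (g (t, x)).1.1.1 ∨ v = (g (t, x)).1.1.2 := fun t x => hv _ (hg t x)
  have hoinj : ∀ t x t' x', h1_oth v (g (t, x)).1 = h1_oth v (g (t', x')).1 →
      t = t' ∧ x = x' := by
    intro t x t' x' h
    have h1 := h1_oth_inj (hgv t x) (hgv t' x') h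
    have h2 := g.injective (Subtype.ext h1)
    exact Prod.mk.inj h2
  have hone : ∀ t x, h1_oth v (g (t, x)).1 ≠ v := fun t x => h1_oth_ne (hgv t x)
  -- the ends are neither in `R` nor in the range of `pad`
  have hvend : v ∉ R ∧ ∀ w, pad w ≠ v := hE _ (hg 0 ⟨0, hmp⟩) v (hgv 0 ⟨0, hmp⟩)
  have hoend : ∀ t x, h1_oth v (g (t, x)).1 ∉ R ∧ ∀ w, pad w ≠ h1_oth v (g (t, x)).1 := by
    intro t x
    apply hE _ (hg t x)
    rcases h1_oth_spec (hgv t x) with h | h
    · right
      exact (congrArg Prod.snd h).symm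
    · left
      exact (congrArg Prod.fst h).symm
  have hmn : m ≤ n := by
    have h := Fintype.card_le_of_injective (fun x : Fin m => h1_oth v (g (0, x)).1)
      (fun x x' h => (hoinj 0 x 0 x' h).2)
    simpa using h
  let κ : Fin n → Option (Fin 3) := fun u =>
    if u = v then some 0 else if ∃ x, u = h1_oth v (g (0, x)).1 then some 1 else
      if ∃ x, u = h1_oth v (g (1, x)).1 then some 2 else none
  have hκv : κ v = some 0 := if_pos rfl
  have hκ0 : ∀ x, κ (h1_oth v (g (0, x)).1) = some 1 := by
    intro x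
    show (if _ then _ else _) = _
    rw [if_neg (hone 0 x), if_pos ⟨x, rfl⟩]
  have hκ1 : ∀ x, κ (h1_oth v (g (1, x)).1) = some 2 := by
    intro x
    show (if _ then _ else _) = _
    rw [if_neg (hone 1 x), if_neg, if_pos ⟨x, rfl⟩]
    rintro ⟨y, hy⟩
    exact absurd (hoinj 1 x 0 y hy).1 (by decide)
  have hκn : ∀ u, u ≠ v → (∀ t x, u ≠ h1_oth v (g (t, x)).1) → κ u = none := by
    intro u hu hu'
    show (if _ then _ else _) = _
    rw [if_neg hu, if_neg, if_neg]
    · rintro ⟨y, hy⟩
      exact hu' _ _ hy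
    · rintro ⟨y, hy⟩
      exact hu' _ _ hy
  let ν : (Fin 2 → Fin m) → Fin 3 → Fin n := fun q =>
    ![v, h1_oth v (g (0, q 0)).1, h1_oth v (g (1, q 1)).1]
  refine ⟨{ a := fun _ => 0, b := ![1, 2], hab := hab, hne := hne
            κ := κ, ν := ν
            hκ := ?_
            ed := fun t x => (g (t, x)).1
            hed := ?_
            inj := ?_
            pad := pad, pinj := pinj
            pκ := ?_
            R := R
            hRκ := ?_
            hRp := hRp
            few := ?_ }, rfl, hg⟩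
  · intro q j
    fin_cases j
    · exact hκv
    · exact hκ0 (q 0)
    · exact hκ1 (q 1)
  · intro q t
    fin_cases t
    · exact h1_oth_spec (hgv 0 (q 0))
    · exact h1_oth_spec (hgv 1 (q 1))
  · intro t x x' h
    have h2 := g.injective (Subtype.ext h)
    exact (Prod.mk.inj h2).2
  · intro w
    exact hκn _ (hvend.2 w) fun t x => (hoend t x).2 w
  · intro u hu
    apply hκn
    · rintro rfl
      exact hvend.1 hu
    · rintro t x rfl
      exact (hoend t x).1 hu
  · intro j u
    rw [min_eq_left hmn]
    have h1 : ∀ t : Fin 2, (univ.filter fun q : Fin 2 → Fin m =>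
        h1_oth v (g (t, q t)).1 = u).card ≤ m * m := by
      intro t
      rcases (univ.filter fun q : Fin 2 → Fin m =>
        h1_oth v (g (t, q t)).1 = u).eq_empty_or_nonempty with h | ⟨q₀, h₀⟩
      · rw [h]
        simp
      · have h2 := (mem_filter.mp h₀).2
        calc _ ≤ (univ.filter fun q : Fin 2 → Fin m => q t = q₀ t).card := by
              apply Finset.card_le_card
              intro q hq
              rw [mem_filter] at hq ⊢
              refine ⟨mem_univ _, ?_⟩
              exact (hoinj t (q t) t (q₀ t) (hq.2.trans h2.symm)).2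
          _ ≤ m := h1_few t (q₀ t)
          _ ≤ m * m := Nat.le_mul_of_pos_left m hmp
    fin_cases j
    · calc _ ≤ (univ : Finset (Fin 2 → Fin m)).card := Finset.card_le_card (filter_subset _ _)
        _ = m * m := by simp [sq]
    · exact h1 0
    · exact h1 1

end Pool.Agent.RS
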