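import Mathlib
import Pool.Agent.Lib.MP_0a1b52_lc_RS.Defs
import Pool.Agent.Lib.MP_0a1b52_lc_RP.Bad

/-!
# Gadgets with control edges in a given set: few hub fans
-/

set_option autoImplicit false

namespace Pool.Agent.RS

open Finset Pool.Agent.FP

/-- functions with `q (f a) ∈ S` for all `a` -/
private theorem H_mem {U V A : Type} [Fintype U] [DecidableEq U] [Fintype V] [DecidableEq V]
    [Fintype A] (f : A → U) (hf : Function.Injective f) (S : Finset V) :
    (univ.filter fun q : U → V => ∀ a, q (f a) ∈ S).card * Fintype.card V ^ Fintype.card A =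
      S.card ^ Fintype.card A * Fintype.card V ^ Fintype.card U := by
  classical
  have e : {q : U → V // ∀ a, q (f a) ∈ S} × (A → V) ≃ (A → S) × (U → V) :=
    { toFun := fun p => (fun a => ⟨p.1.1 (f a), p.1.2 a⟩, Function.extend f p.2 p.1.1)
      invFun := fun p => (⟨Function.extend f (fun a => (p.1 a : V)) p.2, fun a => by
        rw [hf.extend_apply]; exact (p.1 a).2⟩, fun a => p.2 (f a))
      left_inv := by
        rintro ⟨⟨q, hq⟩, ψ⟩
        ext1
        · apply Subtype.ext
          funext u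
          by_cases hu : ∃ a, f a = u
          · obtain ⟨a, rfl⟩ := hu
            simp only
            rw [hf.extend_apply]
          · simp only
            rw [Function.extend_apply' _ _ _ hu, Function.extend_apply' _ _ _ hu]
        · funext a
          exact hf.extend_apply ψ q a
      right_inv := by
        rintro ⟨s, g⟩
        ext1
        · funext a
          apply Subtype.ext
          change Function.extend f (fun a => (s a : V)) g (f a) = s a
          exact hf.extend_apply _ g a
        · funext u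
          by_cases hu : ∃ a, f a = u
          · obtain ⟨a, rfl⟩ := hu
            simp only
            rw [hf.extend_apply]
          · simp only
            rw [Function.extend_apply' _ _ _ hu, Function.extend_apply' _ _ _ hu] }
  have h := Fintype.card_congr e
  rw [Fintype.card_prod, Fintype.card_prod, Fintype.card_fun, Fintype.card_fun, Fintype.card_fun,
    Fintype.card_coe, Fintype.card_subtype] at h
  exact h

/-- functions with `φ (b a) = φ (d a)` for different places -/
private theorem H_eq {U A : Type} [Fintype U] [DecidableEq U] [Fintype A] (N : ℕ) (hN : 1 ≤ N)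
    (b : A ⊕ A → U) (hb : Function.Injective b) (P : (U → Fin N) → Prop) [DecidablePred P]
    (hP : ∀ φ, P φ ↔ ∀ a, φ (b (.inl a)) = φ (b (.inr a))) :
    (univ.filter P).card * N ^ Fintype.card A = N ^ Fintype.card U := by
  classical
  have h1 := Pool.Agent.RP.sum_pattern (U := U) (A := A ⊕ A) (H := A) (Q := Unit) N
    (fun _ => b) (fun _ => hb) (Sum.elim id id)
  have h2 : ∀ φ : U → Fin N, (univ.filter fun p : Unit × (A → Fin N) =>
      ∀ a, φ (b a) = p.2 (Sum.elim id id a)).card =
      if P φ then 1 else 0 := by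
    intro φ
    split_ifs with h
    · rw [hP] at h
      rw [card_eq_one]
      refine ⟨((), fun a => φ (b (.inl a))), ?_⟩
      ext ⟨u, g⟩
      simp only [mem_filter, mem_univ, true_and, mem_singleton, Prod.mk.injEq]
      constructor
      · intro hg
        funext a
        exact (hg (.inl a)).symm
      · rintro rfl
        rintro (a | a)
        · rfl
        · exact (h a).symm
    · rw [card_eq_zero, filter_eq_empty_iff]
      rintro ⟨u, g⟩ _ hg
      apply h
      rw [hP]
      intro a
      exact (hg (.inl a)).trans (hg (.inr a)).symm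
  rw [sum_congr rfl (fun φ _ => h2 φ), ← card_filter, Fintype.card_sum, Fintype.card_unit,
    one_mul] at h1
  have hpos : 0 < N ^ Fintype.card A := pow_pos hN _
  apply Nat.eq_of_mul_eq_mul_right hpos
  rw [mul_assoc, ← pow_add]
  exact h1

/-- the index type of the hub fans -/
private abbrev HCfg (n c G z a : ℕ) : Type :=
  {x : (Fin G × Fin c × Fin n) × ((Fin a → Fin G) × (Fin a → Fin z) × (Fin a → Fin z)) //
    Function.Injective x.2.1 ∧ Function.Injective x.2.2.1 ∧ ∀ y, x.2.1 y ≠ x.1.1}

private theorem H_cfg (n c G z a : ℕ) :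
    (Fintype.card (HCfg n c G z a) : ℝ) ≤ c * n * G * ((z : ℝ) ^ 2 * G) ^ a := by
  have h1 := Fintype.card_subtype_le
    (fun x : (Fin G × Fin c × Fin n) × ((Fin a → Fin G) × (Fin a → Fin z) × (Fin a → Fin z)) =>
      Function.Injective x.2.1 ∧ Function.Injective x.2.2.1 ∧ ∀ y, x.2.1 y ≠ x.1.1)
  have h2 : Fintype.card ((Fin G × Fin c × Fin n) ×
      ((Fin a → Fin G) × (Fin a → Fin z) × (Fin a → Fin z))) =
      c * n * G * (z ^ 2 * G) ^ a := by
    simp only [Fintype.card_prod, Fintype.card_fun, Fintype.card_fin]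
    ring
  rw [h2] at h1
  exact_mod_cast h1

theorem hub_sum {n c m N : ℕ} (F : Frame n c m N) (hm : 1 ≤ m) (hN : 1 ≤ N) (G z a : ℕ)
    (ha : 1 ≤ a) :
    ∃ R : (Fin G → Fin 2 → Fin m) → (Fin G × Fin z → Fin N) → Finset (Fin G),
      (∀ q φ i₀, i₀ ∉ R q φ → ∀ (j : Fin c) (f : Fin a → Fin G) (k l : Fin a → Fin z),
        Function.Injective f → Function.Injective k → (∀ x, f x ≠ i₀) →
        (∀ x, φ (f x, l x) = φ (i₀, k x)) →
        (∀ x y, F.ν (q (f x)) j = F.ν (q (f y)) j) → False) ∧
      ∑ q, ∑ φ, ((R q φ).card : ℝ) ≤ (m : ℝ) ^ (2 * G) * (N : ℝ) ^ (G * z) *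
        (c * n * G * ((z : ℝ) ^ 2 * G * (min m n : ℕ) / (m * N)) ^ a) := by
  classical
  have hm' : (0 : ℝ) < m := by exact_mod_cast hm
  have hN' : (0 : ℝ) < N := by exact_mod_cast hN
  let P : HCfg n c G z a → (Fin G → Fin 2 → Fin m) → Prop := fun p q =>
    ∀ x, F.ν (q (p.1.2.1 x)) p.1.1.2.1 = p.1.1.2.2
  let Q : HCfg n c G z a → (Fin G × Fin z → Fin N) → Prop := fun p φ =>
    ∀ x, φ (p.1.2.1 x, p.1.2.2.2 x) = φ (p.1.1.1, p.1.2.2.1 x)
  refine ⟨fun q φ => (univ.filter fun p : HCfg n c G z a => P p q ∧ Q p φ).image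
    fun p => p.1.1.1, ?_, ?_⟩
  · intro q φ i₀ h0 j f k l hf hk hi h1 h2
    apply h0
    rw [mem_image]
    refine ⟨⟨((i₀, j, F.ν (q (f ⟨0, ha⟩)) j), (f, k, l)), hf, hk, hi⟩, ?_, rfl⟩
    rw [mem_filter]
    exact ⟨mem_univ _, fun x => h2 x ⟨0, ha⟩, h1⟩
  · have hP : ∀ p : HCfg n c G z a, ((univ.filter fun q => P p q).card : ℝ) ≤
        ((min m n : ℕ) * m : ℝ) ^ a * ((m : ℝ) ^ 2) ^ G / ((m : ℝ) ^ 2) ^ a := by
      intro p
      have h := H_mem (V := Fin 2 → Fin m) p.1.2.1 p.2.1
        (univ.filter fun q => F.ν q p.1.1.2.1 = p.1.1.2.2)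
      simp only [Fintype.card_fun, Fintype.card_fin, mem_filter, mem_univ, true_and] at h
      have h3 := F.few p.1.1.2.1 p.1.1.2.2
      have h4 : (univ.filter fun q => P p q).card * (m ^ 2) ^ a ≤
          (min m n * m) ^ a * (m ^ 2) ^ G := by
        refine h.le.trans ?_
        exact Nat.mul_le_mul_right _ (Nat.pow_le_pow_left h3 _)
      rw [le_div_iff₀ (by positivity)]
      exact_mod_cast h4
    have hQ : ∀ p : HCfg n c G z a, ((univ.filter fun φ => Q p φ).card : ℝ) =
        (N : ℝ) ^ (G * z) / (N : ℝ) ^ a := by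
      intro p
      have h := H_eq (U := Fin G × Fin z) (A := Fin a) N hN
        (Sum.elim (fun x => (p.1.2.1 x, p.1.2.2.2 x)) (fun x => (p.1.1.1, p.1.2.2.1 x)))
        (by
          rintro (x | x) (y | y) h
          · simp only [Sum.elim_inl, Prod.mk.injEq] at h
            rw [p.2.1 h.1]
          · simp only [Sum.elim_inl, Sum.elim_inr, Prod.mk.injEq] at h
            exact absurd h.1 (p.2.2.2 x)
          · simp only [Sum.elim_inl, Sum.elim_inr, Prod.mk.injEq] at h
            exact absurd h.1.symm (p.2.2.2 y)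
          · simp only [Sum.elim_inr, Prod.mk.injEq] at h
            rw [p.2.2.1 h.2])
        (Q p) (fun φ => Iff.rfl)
      simp only [Fintype.card_fin, Fintype.card_prod] at h
      rw [eq_div_iff (by positivity)]
      exact_mod_cast h
    have h1 : ∀ q φ, ((((univ.filter fun p : HCfg n c G z a => P p q ∧ Q p φ).image
        fun p => p.1.1.1).card : ℕ) : ℝ) ≤
        ∑ p : HCfg n c G z a, (if P p q then (1 : ℝ) else 0) * (if Q p φ then (1 : ℝ) else 0) := by
      intro q φ
      refine (Nat.cast_le.mpr card_image_le).trans (le_of_eq ?_)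
      rw [card_filter, Nat.cast_sum]
      refine sum_congr rfl fun p _ => ?_
      by_cases hp : P p q <;> by_cases hq : Q p φ <;> simp [hp, hq]
    calc ∑ q, ∑ φ, ((((univ.filter fun p : HCfg n c G z a => P p q ∧ Q p φ).image
          fun p => p.1.1.1).card : ℕ) : ℝ)
        ≤ ∑ q, ∑ φ, ∑ p : HCfg n c G z a, (if P p q then (1 : ℝ) else 0) *
          (if Q p φ then (1 : ℝ) else 0) := sum_le_sum fun q _ => sum_le_sum fun φ _ => h1 q φ
      _ = ∑ p : HCfg n c G z a, ((univ.filter fun q => P p q).card : ℝ) *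
          ((univ.filter fun φ => Q p φ).card : ℝ) := by
        have e1 : ∀ q, ∑ φ, ∑ p : HCfg n c G z a, (if P p q then (1 : ℝ) else 0) *
            (if Q p φ then (1 : ℝ) else 0) = ∑ p : HCfg n c G z a, (if P p q then (1 : ℝ) else 0) *
            ((univ.filter fun φ => Q p φ).card : ℝ) := by
          intro q
          rw [sum_comm]
          refine sum_congr rfl fun p _ => ?_
          rw [← mul_sum, card_filter, Nat.cast_sum]
          simp only [Nat.cast_ite, Nat.cast_one, Nat.cast_zero]
        rw [sum_congr rfl fun q _ => e1 q, sum_comm]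
        refine sum_congr rfl fun p _ => ?_
        have e3 : ((univ.filter fun q => P p q).card : ℝ) =
            ∑ q, if P p q then (1 : ℝ) else 0 := by
          rw [card_filter, Nat.cast_sum]
          simp only [Nat.cast_ite, Nat.cast_one, Nat.cast_zero]
        rw [← sum_mul, e3]
      _ ≤ ∑ _p : HCfg n c G z a, (((min m n : ℕ) * m : ℝ) ^ a * ((m : ℝ) ^ 2) ^ G /
          ((m : ℝ) ^ 2) ^ a) * ((N : ℝ) ^ (G * z) / (N : ℝ) ^ a) := by
        refine sum_le_sum fun p _ => ?_
        rw [hQ p]
        exact mul_le_mul_of_nonneg_right (hP p) (by positivity)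
      _ = (Fintype.card (HCfg n c G z a) : ℝ) * ((((min m n : ℕ) * m : ℝ) ^ a *
          ((m : ℝ) ^ 2) ^ G / ((m : ℝ) ^ 2) ^ a) * ((N : ℝ) ^ (G * z) / (N : ℝ) ^ a)) := by
        rw [sum_const, card_univ, nsmul_eq_mul]
      _ ≤ (c * n * G * ((z : ℝ) ^ 2 * G) ^ a) * ((((min m n : ℕ) * m : ℝ) ^ a *
          ((m : ℝ) ^ 2) ^ G / ((m : ℝ) ^ 2) ^ a) * ((N : ℝ) ^ (G * z) / (N : ℝ) ^ a)) :=
        mul_le_mul_of_nonneg_right (H_cfg n c G z a) (by positivity)
      _ = (m : ℝ) ^ (2 * G) * (N : ℝ) ^ (G * z) *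
          (c * n * G * ((z : ℝ) ^ 2 * G * (min m n : ℕ) / (m * N)) ^ a) := by
        have e2 : ((m : ℝ) ^ 2) ^ G = (m : ℝ) ^ (2 * G) := (pow_mul _ _ _).symm
        rw [e2, div_pow, mul_pow, mul_pow, mul_pow, mul_pow, ← pow_mul (m : ℝ) 2 a]
        field_simp
        ring

end Pool.Agent.RS
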