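import Mathlib
import Pool.Agent.Lib.MP_0a1b52_lc_RS.Defs
import Pool.Agent.Lib.MP_0a1b52_lc_RP.Bad

/-!
# Gadgets with control edges in a given set: the parameters
-/

set_option autoImplicit false

namespace Pool.Agent.RS

open Finset Pool.Agent.FP Pool.Agent.RP

theorem param (a h z : ℕ) (η : ℝ) (hη0 : 0 < η) (hη1 : η ≤ 1) (ha : 4 ≤ η * ((a : ℝ) - 1))
    (hh : 8 ≤ η * ((h : ℝ) - 1)) (hz : 1 ≤ z) {n m N G c : ℕ} (hn : 32 ≤ n)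
    (hL : 8 * 4096 * (z : ℝ) ^ 4 + 16 ≤ (n : ℝ) ^ (η / 2))
    (hn2 : 512 * (z : ℝ) ^ 2 ≤ (n : ℝ) ^ (1 / 2 : ℝ)) (hm1 : 1 ≤ m) (hmn : m ≤ n ^ 2)
    (hN : n ≤ 64 * N) (hNn : N ≤ n) (hc : c ≤ 4) (hG : (G : ℝ) ≤ m * (n : ℝ) ^ (-η))
    (hG1 : 1 ≤ G) :
    bad G z N a h + 2 * (G : ℝ) ^ 2 / m +
      c * n * G * ((z : ℝ) ^ 2 * G * (min m n : ℕ) / (m * N)) ^ a ≤
      G * (n : ℝ) ^ (-(η / 2)) := by
  have hnR : (32 : ℝ) ≤ n := by exact_mod_cast hn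
  have hn0 : (0 : ℝ) < n := by linarith
  have hn1 : (1 : ℝ) ≤ n := by linarith
  have hzR : (1 : ℝ) ≤ z := by exact_mod_cast hz
  have hmR : (1 : ℝ) ≤ m := by exact_mod_cast hm1
  have hmnR : (m : ℝ) ≤ (n : ℝ) ^ 2 := by exact_mod_cast hmn
  have hNR : (n : ℝ) ≤ 64 * N := by exact_mod_cast hN
  have hNnR : (N : ℝ) ≤ n := by exact_mod_cast hNn
  have hcR : (c : ℝ) ≤ 4 := by exact_mod_cast hc
  have hGR : (1 : ℝ) ≤ G := by exact_mod_cast hG1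
  have hN0 : (0 : ℝ) < N := by linarith
  obtain ⟨L, hLdef⟩ : ∃ L : ℝ, L = (n : ℝ) ^ (η / 2) := ⟨_, rfl⟩
  rw [← hLdef] at hL
  have hz4 : (1 : ℝ) ≤ (z : ℝ) ^ 4 := one_le_pow₀ hzR
  have hz2 : (1 : ℝ) ≤ (z : ℝ) ^ 2 := one_le_pow₀ hzR
  have hz3 : (1 : ℝ) ≤ (z : ℝ) ^ 3 := one_le_pow₀ hzR
  have hz24 : (z : ℝ) ^ 2 ≤ (z : ℝ) ^ 4 := pow_le_pow_right₀ hzR (by norm_num)
  have hz34 : (z : ℝ) ^ 3 ≤ (z : ℝ) ^ 4 := pow_le_pow_right₀ hzR (by norm_num)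
  have hL16 : 16 ≤ L := by linarith
  have hL0 : 0 < L := by linarith
  have hLinv : (n : ℝ) ^ (-(η / 2)) = L⁻¹ := by rw [hLdef, Real.rpow_neg hn0.le]
  have hL2 : (n : ℝ) ^ (-η) = (L ^ 2)⁻¹ := by
    rw [Real.rpow_neg hn0.le, hLdef, ← Real.rpow_natCast, ← Real.rpow_mul hn0.le]
    congr 2
    push_cast
    ring
  have hLn : L ≤ (n : ℝ) ^ (1 / 2 : ℝ) := by
    rw [hLdef]
    exact Real.rpow_le_rpow_of_exponent_le hn1 (by linarith only [hη1])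
  have hsq : (n : ℝ) ^ (1 / 2 : ℝ) * (n : ℝ) ^ (1 / 2 : ℝ) = n := by
    rw [← Real.rpow_add hn0]
    norm_num
  have hG' : (G : ℝ) * L ^ 2 ≤ m := by
    rw [hL2] at hG
    have h1 : (0 : ℝ) < L ^ 2 := by positivity
    calc (G : ℝ) * L ^ 2 ≤ (m * (L ^ 2)⁻¹) * L ^ 2 := mul_le_mul_of_nonneg_right hG h1.le
      _ = m := by field_simp
  have hGn : (G : ℝ) * L ^ 2 ≤ 4096 * (N : ℝ) ^ 2 := by
    have h1 : (n : ℝ) ^ 2 ≤ (64 * (N : ℝ)) ^ 2 := pow_le_pow_left₀ hn0.le hNR 2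
    have h2 : (64 * (N : ℝ)) ^ 2 = 4096 * (N : ℝ) ^ 2 := by ring
    linarith only [hG', hmnR, h1, h2]
  -- a general estimate: `G * x / N ^ 2 ≤ 1 / L` if `4096 * x ≤ L`
  have hbase : ∀ x : ℝ, 0 ≤ x → 4096 * x ≤ L → (G : ℝ) * x / (N : ℝ) ^ 2 ≤ L⁻¹ := by
    intro x hx hxL
    rw [div_le_iff₀ (by positivity), inv_mul_eq_div, le_div_iff₀ hL0]
    have h1 : (G : ℝ) * (4096 * x) * L ≤ G * L * L :=
      mul_le_mul_of_nonneg_right (mul_le_mul_of_nonneg_left hxL (by linarith)) hL0.le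
    linarith only [h1, hGn]
  -- powers of `L`
  have hLa : 32 * (n : ℝ) * L ≤ L ^ a := by
    have h1 : (n : ℝ) ^ (2 : ℝ) * L ≤ L ^ a := by
      rw [← Real.rpow_natCast L a, hLdef, ← Real.rpow_mul hn0.le, ← Real.rpow_add hn0]
      exact Real.rpow_le_rpow_of_exponent_le hn1 (by linarith only [ha])
    have h2 : (n : ℝ) ^ (2 : ℝ) = n * n := by
      rw [Real.rpow_two, sq]
    rw [h2] at h1
    have h3 : 32 * (n : ℝ) * L ≤ n * n * L :=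
      mul_le_mul_of_nonneg_right (mul_le_mul_of_nonneg_right hnR hn0.le) hL0.le
    exact h3.trans h1
  have hh2 : (9 : ℝ) ≤ h := by
    by_contra hc
    push Not at hc
    have h1 : (0 : ℝ) ≤ (1 - η) * (9 - h) :=
      mul_nonneg (by linarith only [hη1]) (by linarith only [hc])
    nlinarith only [h1, hh, hη0, hc, hη1]
  have hcard := pairs_card h
  obtain ⟨P, hP⟩ : ∃ P : ℕ, P = Fintype.card (Pairs h) := ⟨_, rfl⟩
  rw [← hP] at hcard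
  have hh1 : 1 ≤ h := by
    have : (1 : ℝ) ≤ h := by linarith
    exact_mod_cast this
  have hPR : 2 * (P : ℝ) = h * (h - 1) := by
    have := congrArg (Nat.cast : ℕ → ℝ) hcard
    push_cast [Nat.cast_sub hh1] at this
    exact this
  have hLP : 8 * L * (n : ℝ) ^ h ≤ L ^ P := by
    have h0 : η / 2 * (P : ℝ) ≥ 2 * h := by
      have h1 : (h : ℝ) * 8 ≤ h * (η * ((h : ℝ) - 1)) :=
        mul_le_mul_of_nonneg_left hh (by linarith)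
      have h2 : (P : ℝ) = h * (h - 1) / 2 := by linarith only [hPR]
      have h3 : η / 2 * (P : ℝ) = h * (η * ((h : ℝ) - 1)) / 4 := by
        rw [h2]
        ring
      linarith only [h1, h3]
    have h1 : (n : ℝ) ^ (2 : ℝ) * (n : ℝ) ^ h ≤ L ^ P := by
      rw [← Real.rpow_natCast L P, ← Real.rpow_natCast (n : ℝ) h, hLdef,
        ← Real.rpow_mul hn0.le, ← Real.rpow_add hn0]
      exact Real.rpow_le_rpow_of_exponent_le hn1 (by linarith)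
    have h2 : 8 * L ≤ (n : ℝ) ^ (2 : ℝ) := by
      rw [Real.rpow_two]
      have h3 : (n : ℝ) ^ (1 / 2 : ℝ) ≤ n := by
        have := Real.rpow_le_rpow_of_exponent_le hn1 (by norm_num : (1 / 2 : ℝ) ≤ 1)
        rwa [Real.rpow_one] at this
      have h4 : 32 * (n : ℝ) ≤ n * n := mul_le_mul_of_nonneg_right hnR hn0.le
      have h5 : (n : ℝ) ^ 2 = n * n := sq _
      linarith only [h3, hLn, h4, h5, hn0]
    calc 8 * L * (n : ℝ) ^ h ≤ (n : ℝ) ^ (2 : ℝ) * (n : ℝ) ^ h :=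
          mul_le_mul_of_nonneg_right h2 (by positivity)
      _ ≤ L ^ P := h1
  -- the six terms
  have t1 : (G : ℝ) * (z : ℝ) ^ 2 / N ≤ G * L⁻¹ / 8 := by
    rw [div_le_iff₀ hN0]
    have h1 : 8 * L * (z : ℝ) ^ 2 ≤ N := by
      have h2 : 512 * (z : ℝ) ^ 2 * L ≤ n := by
        calc 512 * (z : ℝ) ^ 2 * L ≤ (n : ℝ) ^ (1 / 2 : ℝ) * (n : ℝ) ^ (1 / 2 : ℝ) :=
              mul_le_mul hn2 hLn hL0.le (by positivity)
          _ = n := hsq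
      linarith
    have h3 : (z : ℝ) ^ 2 ≤ L⁻¹ / 8 * N := by
      rw [div_mul_eq_mul_div, inv_mul_eq_div, div_div, le_div_iff₀ (by positivity)]
      linarith
    calc (G : ℝ) * (z : ℝ) ^ 2 ≤ G * (L⁻¹ / 8 * N) := mul_le_mul_of_nonneg_left h3 (by linarith)
      _ = G * L⁻¹ / 8 * N := by ring
  have t2 : (G : ℝ) ^ 2 * (z : ℝ) ^ 4 / (N : ℝ) ^ 2 ≤ G * L⁻¹ / 8 := by
    have h1 := hbase (8 * (z : ℝ) ^ 4) (by positivity) (by linarith)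
    have h2 : (G : ℝ) ^ 2 * (z : ℝ) ^ 4 / (N : ℝ) ^ 2 =
        G * ((G : ℝ) * (8 * (z : ℝ) ^ 4) / (N : ℝ) ^ 2) / 8 := by ring
    rw [h2]
    have h3 := mul_le_mul_of_nonneg_left h1 (by linarith : (0 : ℝ) ≤ G)
    linarith
  have t3 : (G : ℝ) ^ (a + 1) * (z : ℝ) ^ (3 * a) * N / (N : ℝ) ^ (2 * a) ≤ G * L⁻¹ / 8 := by
    have h1 := hbase ((z : ℝ) ^ 3) (by positivity) (by linarith)
    have h2 : (G : ℝ) ^ (a + 1) * (z : ℝ) ^ (3 * a) * N / (N : ℝ) ^ (2 * a) =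
        G * N * ((G : ℝ) * (z : ℝ) ^ 3 / (N : ℝ) ^ 2) ^ a := by
      rw [div_pow, mul_pow, ← pow_mul, ← pow_mul, pow_succ]
      ring
    rw [h2]
    have h3 : ((G : ℝ) * (z : ℝ) ^ 3 / (N : ℝ) ^ 2) ^ a ≤ (L⁻¹) ^ a :=
      pow_le_pow_left₀ (by positivity) h1 a
    have h4 : (N : ℝ) * (L⁻¹) ^ a ≤ L⁻¹ / 8 := by
      rw [inv_pow, ← div_eq_mul_inv, div_le_iff₀ (by positivity)]
      have h5 : 8 * (N : ℝ) * L ≤ L ^ a := by
        have h6 : (N : ℝ) * L ≤ n * L := mul_le_mul_of_nonneg_right hNnR hL0.le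
        have h7 : 0 ≤ (n : ℝ) * L := mul_nonneg hn0.le hL0.le
        linarith only [h6, h7, hLa]
      calc (N : ℝ) = L⁻¹ / 8 * (8 * N * L) := by field_simp
        _ ≤ L⁻¹ / 8 * L ^ a := mul_le_mul_of_nonneg_left h5 (by positivity)
    calc G * N * ((G : ℝ) * (z : ℝ) ^ 3 / (N : ℝ) ^ 2) ^ a ≤ G * N * (L⁻¹) ^ a :=
          mul_le_mul_of_nonneg_left h3 (by positivity)
      _ = G * (N * (L⁻¹) ^ a) := by ring
      _ ≤ G * (L⁻¹ / 8) := mul_le_mul_of_nonneg_left h4 (by linarith)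
      _ = G * L⁻¹ / 8 := by ring
  have t4 : ((G : ℝ) * (z : ℝ) ^ 2) ^ P * (N : ℝ) ^ h / (N : ℝ) ^ (2 * P) ≤ G * L⁻¹ / 8 := by
    have h1 := hbase ((z : ℝ) ^ 2) (by positivity) (by linarith)
    have h2 : ((G : ℝ) * (z : ℝ) ^ 2) ^ P * (N : ℝ) ^ h / (N : ℝ) ^ (2 * P) =
        (N : ℝ) ^ h * ((G : ℝ) * (z : ℝ) ^ 2 / (N : ℝ) ^ 2) ^ P := by
      rw [div_pow, ← pow_mul]
      ring
    rw [h2]
    have h3 : ((G : ℝ) * (z : ℝ) ^ 2 / (N : ℝ) ^ 2) ^ P ≤ (L⁻¹) ^ P :=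
      pow_le_pow_left₀ (by positivity) h1 P
    have h4 : (N : ℝ) ^ h ≤ (n : ℝ) ^ h := pow_le_pow_left₀ hN0.le hNnR h
    have h6 : (n : ℝ) ^ h * (L⁻¹) ^ P ≤ L⁻¹ / 8 := by
      rw [inv_pow, ← div_eq_mul_inv, div_le_iff₀ (by positivity)]
      calc (n : ℝ) ^ h = L⁻¹ / 8 * (8 * L * (n : ℝ) ^ h) := by field_simp
        _ ≤ L⁻¹ / 8 * L ^ P := mul_le_mul_of_nonneg_left hLP (by positivity)
    calc (N : ℝ) ^ h * ((G : ℝ) * (z : ℝ) ^ 2 / (N : ℝ) ^ 2) ^ P ≤ (n : ℝ) ^ h * (L⁻¹) ^ P :=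
          mul_le_mul h4 h3 (by positivity) (by positivity)
      _ ≤ L⁻¹ / 8 := h6
      _ = 1 * (L⁻¹ / 8) := (one_mul _).symm
      _ ≤ G * (L⁻¹ / 8) := mul_le_mul_of_nonneg_right hGR (by positivity)
      _ = G * L⁻¹ / 8 := by ring
  have t5 : 2 * (G : ℝ) ^ 2 / m ≤ G * L⁻¹ / 8 := by
    rw [div_le_iff₀ (by linarith)]
    have h1 : 16 * (G : ℝ) ≤ L⁻¹ * m := by
      rw [inv_mul_eq_div, le_div_iff₀ hL0]
      have h2 : 16 * (G * L) ≤ L * (G * L) :=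
        mul_le_mul_of_nonneg_right hL16 (mul_nonneg (by linarith only [hGR]) hL0.le)
      linarith only [h2, hG']
    have h3 := mul_le_mul_of_nonneg_left h1 (by linarith only [hGR] : (0 : ℝ) ≤ G)
    linarith only [h3]
  have t6 : c * n * G * ((z : ℝ) ^ 2 * G * (min m n : ℕ) / (m * N)) ^ a ≤ G * L⁻¹ / 8 := by
    have hmin : ((min m n : ℕ) : ℝ) ≤ n := by exact_mod_cast min_le_right m n
    have hmin0 : (0 : ℝ) ≤ ((min m n : ℕ) : ℝ) := Nat.cast_nonneg _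
    have h1 : (z : ℝ) ^ 2 * G * (min m n : ℕ) / (m * N) ≤ L⁻¹ := by
      rw [div_le_iff₀ (by positivity), inv_mul_eq_div, le_div_iff₀ hL0]
      have h2 : 64 * (z : ℝ) ^ 2 ≤ L := by linarith
      calc (z : ℝ) ^ 2 * G * (min m n : ℕ) * L ≤ (z : ℝ) ^ 2 * G * n * L := by
            gcongr
        _ ≤ (z : ℝ) ^ 2 * G * (64 * N) * L := by gcongr
        _ = (64 * (z : ℝ) ^ 2) * (G * L * N) := by ring
        _ ≤ L * (G * L * N) := by gcongr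
        _ = (G * L ^ 2) * N := by ring
        _ ≤ m * N := by gcongr
    have h3 : ((z : ℝ) ^ 2 * G * (min m n : ℕ) / (m * N)) ^ a ≤ (L⁻¹) ^ a :=
      pow_le_pow_left₀ (by positivity) h1 a
    have h4 : (c : ℝ) * n * (L⁻¹) ^ a ≤ L⁻¹ / 8 := by
      rw [inv_pow, ← div_eq_mul_inv, div_le_iff₀ (by positivity)]
      have h5 : 8 * (c * (n : ℝ)) * L ≤ L ^ a := by
        have h6 := mul_le_mul_of_nonneg_right hcR (mul_nonneg hn0.le hL0.le)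
        linarith only [h6, hLa]
      calc (c : ℝ) * n = L⁻¹ / 8 * (8 * (c * n) * L) := by field_simp
        _ ≤ L⁻¹ / 8 * L ^ a := mul_le_mul_of_nonneg_left h5 (by positivity)
    calc c * n * G * ((z : ℝ) ^ 2 * G * (min m n : ℕ) / (m * N)) ^ a ≤
          c * n * G * (L⁻¹) ^ a := mul_le_mul_of_nonneg_left h3 (by positivity)
      _ = G * (c * n * (L⁻¹) ^ a) := by ring
      _ ≤ G * (L⁻¹ / 8) := mul_le_mul_of_nonneg_left h4 (by linarith)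
      _ = G * L⁻¹ / 8 := by ring
  have hGL : (0 : ℝ) ≤ G * L⁻¹ := by positivity
  rw [bad, ← hP, hLinv]
  linarith

end Pool.Agent.RS
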