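import Mathlib

/-!
# Gadgets with control edges in a given set: few repeated control edges; a Chernoff bound
-/

set_option autoImplicit false

namespace Pool.Agent.RS

open Finset

private theorem pair_card (m G : ℕ) (i i' : Fin G) (h : i ≠ i') (t : Fin 2) :
    (univ.filter fun q : Fin G → Fin 2 → Fin m => q i t = q i' t).card * m ≤ m ^ (2 * G) := by
  classical
  have key := Finset.card_le_card_of_injOn
    (s := (univ.filter fun q : Fin G → Fin 2 → Fin m => q i t = q i' t) ×ˢ
      (univ : Finset (Fin m)))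
    (t := (univ : Finset (Fin G → Fin 2 → Fin m)))
    (fun x => Function.update x.1 i (Function.update (x.1 i) t x.2))
    (by intro x _; simp)
    (by
      rintro ⟨q, c⟩ hq ⟨q', c'⟩ hq' heq
      simp only [coe_product, coe_filter, mem_univ, true_and, coe_univ, Set.mem_prod,
        Set.mem_ofPred_eq, Set.mem_univ, and_true] at hq hq'
      simp only at heq
      have e1 : c = c' := by
        have := congrFun (congrFun heq i) t
        simpa using this
      have e2 : ∀ j, j ≠ i → q j = q' j := by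
        intro j hj
        have := congrFun heq j
        simpa [hj] using this
      have e3 : ∀ s, s ≠ t → q i s = q' i s := by
        intro s hs
        have := congrFun (congrFun heq i) s
        simpa [hs] using this
      have e4 : q i t = q' i t := by
        rw [hq, hq', e2 i' (Ne.symm h)]
      have e5 : q = q' := by
        funext j s
        by_cases hj : j = i
        · subst hj
          by_cases hs : s = t
          · subst hs; exact e4
          · exact e3 s hs
        · rw [e2 j hj]
      rw [e1, e5])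
  rw [card_product, card_univ, Fintype.card_fin, card_univ] at key
  refine key.trans (le_of_eq ?_)
  simp [Fintype.card_pi, pow_mul]

theorem uniq_sum (m G : ℕ) (hm : 1 ≤ m) :
    ∃ R : (Fin G → Fin 2 → Fin m) → Finset (Fin G),
      (∀ q t i i', i ∉ R q → i ≠ i' → q i t = q i' t → False) ∧
      ∑ q, ((R q).card : ℝ) ≤ (m : ℝ) ^ (2 * G) * (2 * (G : ℝ) ^ 2 / m) := by
  classical
  have hm0 : (0 : ℝ) < m := by exact_mod_cast hm
  refine ⟨fun q => univ.filter fun i => ∃ t i', i ≠ i' ∧ q i t = q i' t, ?_, ?_⟩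
  · intro q t i i' hi hne he
    exact hi (by simp only [mem_filter, mem_univ, true_and]; exact ⟨t, i', hne, he⟩)
  · have h1 : ∀ q : Fin G → Fin 2 → Fin m,
        (((univ.filter fun i => ∃ t i', i ≠ i' ∧ q i t = q i' t).card : ℕ) : ℝ) ≤
          ∑ t : Fin 2, ∑ i : Fin G, ∑ i' : Fin G,
            if i ≠ i' ∧ q i t = q i' t then (1 : ℝ) else 0 := by
      intro q
      rw [card_filter]
      push_cast
      rw [Finset.sum_comm]
      refine sum_le_sum fun i _ => ?_
      split_ifs with hh
      · obtain ⟨t, i', hne, he⟩ := hh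
        calc (1 : ℝ) = if i ≠ i' ∧ q i t = q i' t then (1 : ℝ) else 0 := by
              rw [if_pos ⟨hne, he⟩]
          _ ≤ ∑ i' : Fin G, if i ≠ i' ∧ q i t = q i' t then (1 : ℝ) else 0 :=
              single_le_sum (f := fun i' => if i ≠ i' ∧ q i t = q i' t then (1 : ℝ) else 0)
                (fun _ _ => by positivity) (mem_univ i')
          _ ≤ _ := single_le_sum (f := fun t => ∑ i' : Fin G,
                if i ≠ i' ∧ q i t = q i' t then (1 : ℝ) else 0)
                (fun _ _ => sum_nonneg fun _ _ => by positivity) (mem_univ t)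
      · exact sum_nonneg fun _ _ => sum_nonneg fun _ _ => by positivity
    calc ∑ q : Fin G → Fin 2 → Fin m,
          (((univ.filter fun i => ∃ t i', i ≠ i' ∧ q i t = q i' t).card : ℕ) : ℝ)
        ≤ ∑ q : Fin G → Fin 2 → Fin m, ∑ t : Fin 2, ∑ i : Fin G, ∑ i' : Fin G,
            (if i ≠ i' ∧ q i t = q i' t then (1 : ℝ) else 0) := sum_le_sum fun q _ => h1 q
      _ = ∑ t : Fin 2, ∑ i : Fin G, ∑ i' : Fin G, ∑ q : Fin G → Fin 2 → Fin m,
            (if i ≠ i' ∧ q i t = q i' t then (1 : ℝ) else 0) := by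
          rw [Finset.sum_comm]
          refine sum_congr rfl fun t _ => ?_
          rw [Finset.sum_comm]
          refine sum_congr rfl fun i _ => ?_
          rw [Finset.sum_comm]
      _ ≤ ∑ t : Fin 2, ∑ i : Fin G, ∑ i' : Fin G, (m : ℝ) ^ (2 * G) / m := by
          refine sum_le_sum fun t _ => sum_le_sum fun i _ => sum_le_sum fun i' _ => ?_
          by_cases hne : i ≠ i'
          · have h2 := pair_card m G i i' hne t
            have h3 : (((univ.filter fun q : Fin G → Fin 2 → Fin m =>
                q i t = q i' t).card : ℕ) : ℝ) * m ≤ (m : ℝ) ^ (2 * G) := by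
              exact_mod_cast h2
            have h4 : ∑ q : Fin G → Fin 2 → Fin m,
                (if i ≠ i' ∧ q i t = q i' t then (1 : ℝ) else 0) =
                (((univ.filter fun q : Fin G → Fin 2 → Fin m =>
                q i t = q i' t).card : ℕ) : ℝ) := by
              rw [card_filter]
              push_cast
              refine sum_congr rfl fun q _ => ?_
              simp [hne]
            rw [h4, le_div_iff₀ hm0]
            exact h3
          · have h5 : ∑ q : Fin G → Fin 2 → Fin m,
                (if i ≠ i' ∧ q i t = q i' t then (1 : ℝ) else 0) = 0 := by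
              refine sum_eq_zero fun q _ => ?_
              rw [if_neg (fun hh => hne hh.1)]
            rw [h5]
            positivity
      _ = (m : ℝ) ^ (2 * G) * (2 * (G : ℝ) ^ 2 / m) := by
          simp only [sum_const, card_univ, Fintype.card_fin, nsmul_eq_mul]
          push_cast
          ring

theorem chernoff {A : Type} [Fintype A] [DecidableEq A] (S : Finset A) (G : ℕ) (ρ : ℝ)
    (h0 : 0 ≤ ρ) (h1 : ρ ≤ 1) (hρ : ρ * Fintype.card A ≤ S.card) :
    ((univ.filter fun φ : Fin G → A =>
      ((univ.filter fun i => φ i ∈ S).card : ℝ) < ρ * G / 4).card : ℝ) ≤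
      (Fintype.card A : ℝ) ^ G * (2 : ℝ) ^ (-(ρ * G / 4)) := by
  classical
  set w : A → ℝ := fun a => if a ∈ S then (1 / 4 : ℝ) else 1 with hw
  have hw0 : ∀ a, 0 ≤ w a := by
    intro a; simp only [hw]; split_ifs <;> norm_num
  have hsum : ∑ a, w a = (Fintype.card A : ℝ) - 3 / 4 * S.card := by
    have e : ∀ a, w a = 1 - 3 / 4 * (if a ∈ S then (1 : ℝ) else 0) := by
      intro a; simp only [hw]; split_ifs <;> norm_num
    rw [sum_congr rfl fun a _ => e a, sum_sub_distrib, ← mul_sum]
    simp
  have hexp : ∑ a, w a ≤ (Fintype.card A : ℝ) * Real.exp (-(3 / 4 * ρ)) := by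
    have e1 : (1 : ℝ) - 3 / 4 * ρ ≤ Real.exp (-(3 / 4 * ρ)) := by
      have := Real.add_one_le_exp (-(3 / 4 * ρ))
      linarith
    have e2 : (Fintype.card A : ℝ) * (1 - 3 / 4 * ρ) ≤
        (Fintype.card A : ℝ) * Real.exp (-(3 / 4 * ρ)) :=
      mul_le_mul_of_nonneg_left e1 (by positivity)
    rw [hsum]
    nlinarith
  have hprod : ∑ φ : Fin G → A, ∏ i, w (φ i) = (∑ a, w a) ^ G := by
    have := Finset.prod_univ_sum (ι := Fin G) (fun _ : Fin G => (univ : Finset A))
      (fun _ a => w a)
    rw [Fintype.piFinset_univ] at this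
    rw [← this]
    simp
  have hval : ∀ φ : Fin G → A, ∏ i, w (φ i) =
      (1 / 4 : ℝ) ^ ((univ.filter fun i => φ i ∈ S).card) := by
    intro φ
    simp only [hw]
    rw [prod_ite]
    simp
  set B := univ.filter fun φ : Fin G → A =>
      ((univ.filter fun i => φ i ∈ S).card : ℝ) < ρ * G / 4 with hB
  have hlow : ∀ φ ∈ B, (1 / 4 : ℝ) ^ (ρ * G / 4) ≤ ∏ i, w (φ i) := by
    intro φ hφ
    rw [hB, mem_filter] at hφ
    rw [hval, ← Real.rpow_natCast]
    exact Real.rpow_le_rpow_of_exponent_ge (by norm_num) (by norm_num) hφ.2.le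
  have h3 : (B.card : ℝ) * (1 / 4 : ℝ) ^ (ρ * G / 4) ≤
      ((Fintype.card A : ℝ) * Real.exp (-(3 / 4 * ρ))) ^ G := by
    calc (B.card : ℝ) * (1 / 4 : ℝ) ^ (ρ * G / 4)
        = ∑ φ ∈ B, (1 / 4 : ℝ) ^ (ρ * G / 4) := by rw [sum_const, nsmul_eq_mul]
      _ ≤ ∑ φ ∈ B, ∏ i, w (φ i) := sum_le_sum hlow
      _ ≤ ∑ φ : Fin G → A, ∏ i, w (φ i) :=
          sum_le_sum_of_subset_of_nonneg (subset_univ _)
            fun φ _ _ => prod_nonneg fun i _ => hw0 _
      _ = (∑ a, w a) ^ G := hprod
      _ ≤ _ := pow_le_pow_left₀ (sum_nonneg fun a _ => hw0 a) hexp G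
  have h4 : (0 : ℝ) < (1 / 4 : ℝ) ^ (ρ * G / 4) := by positivity
  have h5 : (B.card : ℝ) ≤ ((Fintype.card A : ℝ) * Real.exp (-(3 / 4 * ρ))) ^ G /
      (1 / 4 : ℝ) ^ (ρ * G / 4) := by
    rw [le_div_iff₀ h4]; exact h3
  refine h5.trans ?_
  rw [mul_pow, mul_div_assoc]
  refine mul_le_mul_of_nonneg_left ?_ (by positivity)
  have hG : (0 : ℝ) ≤ G := by positivity
  rw [← Real.exp_nat_mul, Real.rpow_def_of_pos (by norm_num : (0 : ℝ) < 1 / 4),
    Real.rpow_def_of_pos (by norm_num : (0 : ℝ) < 2), ← Real.exp_sub]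
  refine Real.exp_le_exp.mpr ?_
  have l4 : Real.log (1 / 4) = -(2 * Real.log 2) := by
    rw [one_div, Real.log_inv]
    have : (4 : ℝ) = 2 ^ 2 := by norm_num
    rw [this, Real.log_pow]
    push_cast
    ring
  have l2 : Real.log 2 ≤ 1 := by
    have := Real.log_two_lt_d9
    linarith
  rw [l4]
  have hρG : 0 ≤ ρ * G := mul_nonneg h0 hG
  nlinarith

end Pool.Agent.RS
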