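import Mathlib
import Pool.Agent.Lib.MP_0a1b52_lc_RS.HubSum
import Pool.Agent.Lib.MP_0a1b52_lc_RS.Uniq

/-!
# Gadgets with control edges in a given set: the random system
-/

set_option autoImplicit false

namespace Pool.Agent.RS

open Finset Pool.Agent.FP

private theorem rand_card_q (m G : ℕ) :
    ((univ : Finset (Fin G → Fin 2 → Fin m)).card : ℝ) = (m : ℝ) ^ (2 * G) := by
  rw [Finset.card_univ, Fintype.card_fun, Fintype.card_fun, Fintype.card_fin, Fintype.card_fin,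
    Fintype.card_fin, ← pow_mul, Nat.cast_pow]

private theorem rand_card_phi (N G z : ℕ) :
    ((univ : Finset (Fin G × Fin z → Fin N)).card : ℝ) = (N : ℝ) ^ (G * z) := by
  rw [Finset.card_univ, Fintype.card_fun, Fintype.card_prod, Fintype.card_fin, Fintype.card_fin,
    Fintype.card_fin, Nat.cast_pow]

open Classical in
private theorem rand_sum {m N G z : ℕ} (R1 : (Fin G × Fin z → Fin N) → Finset (Fin G))
    (R2 : (Fin G → Fin 2 → Fin m) → Finset (Fin G))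
    (R3 : (Fin G → Fin 2 → Fin m) → (Fin G × Fin z → Fin N) → Finset (Fin G)) (s1 s2 s3 b : ℝ)
    (h1 : ∑ φ, ((R1 φ).card : ℝ) ≤ (N : ℝ) ^ (G * z) * s1)
    (h2 : ∑ q, ((R2 q).card : ℝ) ≤ (m : ℝ) ^ (2 * G) * s2)
    (h3 : ∑ q, ∑ φ, ((R3 q φ).card : ℝ) ≤ (m : ℝ) ^ (2 * G) * (N : ℝ) ^ (G * z) * s3)
    (hb : s1 + s2 + s3 ≤ b) :
    ∑ ω : (Fin G → Fin 2 → Fin m) × (Fin G × Fin z → Fin N),
      ((R1 ω.2 ∪ R2 ω.1 ∪ R3 ω.1 ω.2).card : ℝ) ≤
        (m : ℝ) ^ (2 * G) * (N : ℝ) ^ (G * z) * b := by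
  have hm0 : (0 : ℝ) ≤ (m : ℝ) ^ (2 * G) := by positivity
  have hN0 : (0 : ℝ) ≤ (N : ℝ) ^ (G * z) := by positivity
  have hpt : ∀ ω : (Fin G → Fin 2 → Fin m) × (Fin G × Fin z → Fin N),
      ((R1 ω.2 ∪ R2 ω.1 ∪ R3 ω.1 ω.2).card : ℝ) ≤
        ((R1 ω.2).card : ℝ) + ((R2 ω.1).card : ℝ) + ((R3 ω.1 ω.2).card : ℝ) := by
    intro ω
    have e1 := Finset.card_union_le (R1 ω.2 ∪ R2 ω.1) (R3 ω.1 ω.2)
    have e2 := Finset.card_union_le (R1 ω.2) (R2 ω.1)
    exact_mod_cast e1.trans (Nat.add_le_add_right e2 _)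
  have e1 : ∑ ω : (Fin G → Fin 2 → Fin m) × (Fin G × Fin z → Fin N), ((R1 ω.2).card : ℝ) ≤
      (m : ℝ) ^ (2 * G) * (N : ℝ) ^ (G * z) * s1 := by
    rw [Fintype.sum_prod_type]
    simp only [Finset.sum_const, nsmul_eq_mul]
    rw [rand_card_q, mul_assoc]
    exact mul_le_mul_of_nonneg_left h1 hm0
  have e2 : ∑ ω : (Fin G → Fin 2 → Fin m) × (Fin G × Fin z → Fin N), ((R2 ω.1).card : ℝ) ≤
      (m : ℝ) ^ (2 * G) * (N : ℝ) ^ (G * z) * s2 := by
    rw [Fintype.sum_prod_type]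
    simp only [Finset.sum_const, nsmul_eq_mul]
    rw [← Finset.mul_sum, rand_card_phi]
    calc (N : ℝ) ^ (G * z) * ∑ q, ((R2 q).card : ℝ)
          ≤ (N : ℝ) ^ (G * z) * ((m : ℝ) ^ (2 * G) * s2) :=
          mul_le_mul_of_nonneg_left h2 hN0
      _ = _ := by ring
  have e3 : ∑ ω : (Fin G → Fin 2 → Fin m) × (Fin G × Fin z → Fin N), ((R3 ω.1 ω.2).card : ℝ) ≤
      (m : ℝ) ^ (2 * G) * (N : ℝ) ^ (G * z) * s3 := by
    rw [Fintype.sum_prod_type]
    exact h3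
  calc ∑ ω : (Fin G → Fin 2 → Fin m) × (Fin G × Fin z → Fin N),
        ((R1 ω.2 ∪ R2 ω.1 ∪ R3 ω.1 ω.2).card : ℝ)
      ≤ ∑ ω : (Fin G → Fin 2 → Fin m) × (Fin G × Fin z → Fin N),
        (((R1 ω.2).card : ℝ) + ((R2 ω.1).card : ℝ) + ((R3 ω.1 ω.2).card : ℝ)) :=
        Finset.sum_le_sum fun ω _ => hpt ω
    _ ≤ (m : ℝ) ^ (2 * G) * (N : ℝ) ^ (G * z) * (s1 + s2 + s3) := by
        rw [Finset.sum_add_distrib, Finset.sum_add_distrib]
        linarith
    _ ≤ (m : ℝ) ^ (2 * G) * (N : ℝ) ^ (G * z) * b :=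
        mul_le_mul_of_nonneg_left hb (mul_nonneg hm0 hN0)

private theorem rand_box {m : ℕ} (A : Fin 2 → Finset (Fin m)) :
    (Fintype.piFinset A).card = (A 0).card * (A 1).card := by
  rw [Fintype.card_piFinset, Fin.prod_univ_two]

open Classical in
theorem rand {n c m N : ℕ} (F : Frame n c m N) (hm : 1 ≤ m) (hN : 1 ≤ N) {G z a h : ℕ}
    (ha : 1 ≤ a) (hh : 2 ≤ h) (b : ℝ) (hb0 : 0 < b)
    (hb : Pool.Agent.RP.bad G z N a h + 2 * (G : ℝ) ^ 2 / m +
      c * n * G * ((z : ℝ) ^ 2 * G * (min m n : ℕ) / (m * N)) ^ a ≤ b) :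
    ∃ (Φ : Type) (_ : Fintype Φ) (Λ : Φ → Finset (Fin G)) (q : Φ → Fin G → Fin 2 → Fin m)
      (p : Φ → Fin G → Fin z → Fin N), 0 < Fintype.card Φ ∧
      (∀ φ, F.Sys a h (Λ φ) (q φ) (p φ)) ∧
      ∀ (A : Fin 2 → Finset (Fin m)) (ρ : ℝ), 0 ≤ ρ → ρ ≤ 1 →
        ρ * (m : ℝ) ^ 2 ≤ ((A 0).card : ℝ) * (A 1).card →
        ((univ.filter fun φ : Φ => (((Λ φ).filter fun i => ∀ t, q φ i t ∈ A t).card : ℝ) <
          ρ * G / 4 - 2 * b).card : ℝ) ≤
        Fintype.card Φ * (2 * (2 : ℝ) ^ (-(ρ * G / 4))) := by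
  obtain ⟨R1, hR1, hS1⟩ := Pool.Agent.RP.bad_sum (I := Fin G) (Jt := Fin z) N a h hN ha hh
  obtain ⟨R2, hR2, hS2⟩ := uniq_sum m G hm
  obtain ⟨R3, hR3, hS3⟩ := hub_sum F hm hN G z a ha
  rw [Fintype.card_fin, Fintype.card_fin] at hS1
  set U : ℝ := (m : ℝ) ^ (2 * G) * (N : ℝ) ^ (G * z) with hU
  have hmpos : (0 : ℝ) < (m : ℝ) := by exact_mod_cast hm
  have hNpos : (0 : ℝ) < (N : ℝ) := by exact_mod_cast hN
  have hUpos : 0 < U := mul_pos (pow_pos hmpos _) (pow_pos hNpos _)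
  have hsum := rand_sum R1 R2 R3 _ _ _ b hS1 hS2 hS3 hb
  set B : (Fin G → Fin 2 → Fin m) × (Fin G × Fin z → Fin N) → Finset (Fin G) :=
    fun ω => R1 ω.2 ∪ R2 ω.1 ∪ R3 ω.1 ω.2 with hB
  have hsum' : ∑ ω, ((B ω).card : ℝ) ≤ U * b := hsum
  have hUcard : ((univ : Finset ((Fin G → Fin 2 → Fin m) × (Fin G × Fin z → Fin N))).card : ℝ) =
      U := by
    rw [← Finset.univ_product_univ, Finset.card_product, Nat.cast_mul, rand_card_q, rand_card_phi]
  set S1 : Finset ((Fin G → Fin 2 → Fin m) × (Fin G × Fin z → Fin N)) :=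
    univ.filter fun ω => 2 * b < ((B ω).card : ℝ) with hS1def
  have h1 : (S1.card : ℝ) ≤ U / 2 := by
    have e1 : (S1.card : ℝ) * (2 * b) ≤ ∑ ω, ((B ω).card : ℝ) := by
      calc (S1.card : ℝ) * (2 * b) = ∑ _ω ∈ S1, (2 * b) := by
            rw [Finset.sum_const, nsmul_eq_mul]
        _ ≤ ∑ ω ∈ S1, ((B ω).card : ℝ) := by
            apply Finset.sum_le_sum
            intro ω hω
            exact (Finset.mem_filter.mp hω).2.le
        _ ≤ ∑ ω, ((B ω).card : ℝ) := by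
            apply Finset.sum_le_sum_of_subset_of_nonneg (Finset.subset_univ _)
            intro ω _ _
            exact Nat.cast_nonneg _
    have e3 : (S1.card : ℝ) * (2 * b) ≤ U / 2 * (2 * b) := by
      calc (S1.card : ℝ) * (2 * b) ≤ U * b := e1.trans hsum'
        _ = U / 2 * (2 * b) := by ring
    exact le_of_mul_le_mul_right e3 (by linarith)
  have hΦ : U ≤ 2 * (Fintype.card {ω : (Fin G → Fin 2 → Fin m) × (Fin G × Fin z → Fin N) //
      ((B ω).card : ℝ) ≤ 2 * b} : ℝ) := by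
    have hsub : (univ : Finset ((Fin G → Fin 2 → Fin m) × (Fin G × Fin z → Fin N))) ⊆
        S1 ∪ univ.filter fun ω => ((B ω).card : ℝ) ≤ 2 * b := by
      intro ω _
      rcases lt_or_ge (2 * b) ((B ω).card : ℝ) with hlt | hge
      · exact Finset.mem_union_left _ (Finset.mem_filter.mpr ⟨Finset.mem_univ _, hlt⟩)
      · exact Finset.mem_union_right _ (Finset.mem_filter.mpr ⟨Finset.mem_univ _, hge⟩)
    have hle := (Finset.card_le_card hsub).trans (Finset.card_union_le _ _)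
    rw [← Fintype.card_subtype (fun ω : (Fin G → Fin 2 → Fin m) × (Fin G × Fin z → Fin N) =>
      ((B ω).card : ℝ) ≤ 2 * b)] at hle
    have hle' : U ≤ (S1.card : ℝ) + (Fintype.card
        {ω : (Fin G → Fin 2 → Fin m) × (Fin G × Fin z → Fin N) //
          ((B ω).card : ℝ) ≤ 2 * b} : ℝ) := by
      rw [← hUcard]
      exact_mod_cast hle
    linarith
  refine ⟨{ω : (Fin G → Fin 2 → Fin m) × (Fin G × Fin z → Fin N) // ((B ω).card : ℝ) ≤ 2 * b},
    inferInstance, fun ω => univ.filter fun i => i ∉ B ω.1, fun ω => ω.1.1,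
    fun ω i j => ω.1.2 (i, j), ?_, ?_, ?_⟩
  · have h2 : (0 : ℝ) < (Fintype.card
        {ω : (Fin G → Fin 2 → Fin m) × (Fin G × Fin z → Fin N) //
          ((B ω).card : ℝ) ≤ 2 * b} : ℝ) := by linarith
    exact_mod_cast h2
  · intro ω
    have hmem : ∀ i, i ∈ (univ.filter fun i => i ∉ B ω.1) →
        i ∉ R1 ω.1.2 ∧ i ∉ R2 ω.1.1 ∧ i ∉ R3 ω.1.1 ω.1.2 := by
      intro i hi
      have hi2 := (Finset.mem_filter.mp hi).2
      refine ⟨fun hx => hi2 ?_, fun hx => hi2 ?_, fun hx => hi2 ?_⟩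
      · exact Finset.mem_union_left _ (Finset.mem_union_left _ hx)
      · exact Finset.mem_union_left _ (Finset.mem_union_right _ hx)
      · exact Finset.mem_union_right _ hx
    refine ⟨?_, ?_, ?_⟩
    · exact hR1 ω.1.2 {i : Fin G // i ∈ univ.filter fun i => i ∉ B ω.1} Subtype.val
        Subtype.val_injective fun l => (hmem l.1 l.2).1
    · intro t i hi i' _ he
      by_contra hne
      exact hR2 ω.1.1 t i i' (hmem i hi).2.1 hne he
    · intro i₀ hi₀ j f k l _ hf hk hne hp hν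
      exact hR3 ω.1.1 ω.1.2 i₀ (hmem i₀ hi₀).2.2 j f k l hf hk hne hp hν
  · intro A ρ hρ0 hρ1 hA
    set W : Finset {ω : (Fin G → Fin 2 → Fin m) × (Fin G × Fin z → Fin N) //
        ((B ω).card : ℝ) ≤ 2 * b} :=
      univ.filter fun ω => (((univ.filter fun i => i ∉ B ω.1).filter fun i =>
        ∀ t, ω.1.1 i t ∈ A t).card : ℝ) < ρ * G / 4 - 2 * b with hW
    have hch := chernoff (A := Fin 2 → Fin m) (Fintype.piFinset A) G ρ hρ0 hρ1 (by
      rw [rand_box, Fintype.card_fun, Fintype.card_fin, Fintype.card_fin]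
      push_cast
      exact hA)
    set Ch : Finset (Fin G → Fin 2 → Fin m) := univ.filter fun q : Fin G → Fin 2 → Fin m =>
      ((univ.filter fun i => q i ∈ Fintype.piFinset A).card : ℝ) < ρ * G / 4 with hCh
    have hsub : W.image Subtype.val ⊆ Ch ×ˢ (univ : Finset (Fin G × Fin z → Fin N)) := by
      intro ω hω
      obtain ⟨ψ, hψ, rfl⟩ := Finset.mem_image.mp hω
      have hψ2 := (Finset.mem_filter.mp hψ).2
      refine Finset.mem_product.mpr ⟨Finset.mem_filter.mpr ⟨Finset.mem_univ _, ?_⟩,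
        Finset.mem_univ _⟩
      have hs : (univ.filter fun i => ψ.1.1 i ∈ Fintype.piFinset A) ⊆
          ((univ.filter fun i => i ∉ B ψ.1).filter fun i => ∀ t, ψ.1.1 i t ∈ A t) ∪ B ψ.1 := by
        intro i hi
        by_cases hiB : i ∈ B ψ.1
        · exact Finset.mem_union_right _ hiB
        · refine Finset.mem_union_left _ (Finset.mem_filter.mpr
            ⟨Finset.mem_filter.mpr ⟨Finset.mem_univ _, hiB⟩, ?_⟩)
          exact Fintype.mem_piFinset.mp (Finset.mem_filter.mp hi).2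
      have hle := (Finset.card_le_card hs).trans (Finset.card_union_le _ _)
      have hle3 : ((univ.filter fun i => ψ.1.1 i ∈ Fintype.piFinset A).card : ℝ) ≤
          (((univ.filter fun i => i ∉ B ψ.1).filter fun i => ∀ t, ψ.1.1 i t ∈ A t).card : ℝ) +
            ((B ψ.1).card : ℝ) := by exact_mod_cast hle
      have hle4 := ψ.2
      linarith
    have hcard : (W.card : ℝ) ≤ U * (2 : ℝ) ^ (-(ρ * G / 4)) := by
      have e1 : W.card ≤ (Ch ×ˢ (univ : Finset (Fin G × Fin z → Fin N))).card := by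
        rw [← Finset.card_image_of_injective W Subtype.val_injective]
        exact Finset.card_le_card hsub
      have e2 : (W.card : ℝ) ≤ (Ch.card : ℝ) * (N : ℝ) ^ (G * z) := by
        rw [Finset.card_product] at e1
        have e3 : (W.card : ℝ) ≤ (Ch.card : ℝ) *
            ((univ : Finset (Fin G × Fin z → Fin N)).card : ℝ) := by exact_mod_cast e1
        rwa [rand_card_phi] at e3
      have e4 : ((Fintype.card (Fin 2 → Fin m) : ℕ) : ℝ) ^ G = (m : ℝ) ^ (2 * G) := by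
        rw [Fintype.card_fun, Fintype.card_fin, Fintype.card_fin, Nat.cast_pow, ← pow_mul]
      rw [e4] at hch
      have hN0 : (0 : ℝ) ≤ (N : ℝ) ^ (G * z) := by positivity
      calc (W.card : ℝ) ≤ (Ch.card : ℝ) * (N : ℝ) ^ (G * z) := e2
        _ ≤ ((m : ℝ) ^ (2 * G) * (2 : ℝ) ^ (-(ρ * G / 4))) * (N : ℝ) ^ (G * z) :=
          mul_le_mul_of_nonneg_right hch hN0
        _ = U * (2 : ℝ) ^ (-(ρ * G / 4)) := by rw [hU]; ring
    have hpow : (0 : ℝ) ≤ (2 : ℝ) ^ (-(ρ * G / 4)) := Real.rpow_nonneg (by norm_num) _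
    calc (W.card : ℝ) ≤ U * (2 : ℝ) ^ (-(ρ * G / 4)) := hcard
      _ ≤ (2 * (Fintype.card {ω : (Fin G → Fin 2 → Fin m) × (Fin G × Fin z → Fin N) //
          ((B ω).card : ℝ) ≤ 2 * b} : ℝ)) * (2 : ℝ) ^ (-(ρ * G / 4)) :=
        mul_le_mul_of_nonneg_right hΦ hpow
      _ = _ := by ring

end Pool.Agent.RS
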