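import Mathlib
import Pool.Agent.Lib.MP_0a1b52_lc_RS.Clq
import Pool.Agent.Lib.MP_0a1b52_lc_RS.FrameEx
import Pool.Agent.Lib.MP_0a1b52_lc_RS.Rand
import Pool.Agent.Lib.MP_0a1b52_lc_RS.Fool
import Pool.Agent.Lib.MP_0a1b52_lc_RS.Param

/-!
# Gadgets with control edges in a given set: hard graphs for a given set of variables
-/

set_option autoImplicit false

namespace Pool.Agent.RS

open Finset Pool.Agent.FP

variable {n c m N G z : ℕ}

/-- a frame with fewer vertices in `R` -/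
private theorem rel_shrink (F : Frame n c m N) {r : ℕ} (hr : r ≤ F.R.card) :
    ∃ F' : Frame n c m N, F'.R.card = r ∧ F'.ed = F.ed := by
  obtain ⟨R', h1, h2⟩ := exists_subset_card_eq hr
  exact ⟨{ F with
    R := R'
    hRκ := fun u hu => F.hRκ u (h1 hu)
    hRp := fun v hv => F.hRp v (h1 hv) }, h2, rfl⟩

private theorem rel_c (F : Frame n c m N) : 1 ≤ c := by
  have := (F.a 0).2
  omega

private theorem rel_disj (F : Frame n c m N) (x y : Fin m) : F.ed 0 x ≠ F.ed 1 y := by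
  intro h
  have h0 := F.hed (fun t => if t = 0 then x else y) 0
  have h1 := F.hed (fun t => if t = 0 then x else y) 1
  simp only [if_true, one_ne_zero, if_false] at h0 h1
  rw [h] at h0
  set q : Fin 2 → Fin m := fun t => if t = 0 then x else y
  have hk : ∀ j j' : Fin c, F.ν q j = F.ν q j' → j = j' := by
    intro j j' hjj
    have e1 := F.hκ q j
    rw [hjj, F.hκ q j'] at e1
    exact (Option.some_inj.1 e1).symm
  apply F.hne
  rw [Sym2.eq_iff]
  rcases h0 with h0 | h0 <;> rcases h1 with h1 | h1 <;> rw [h0] at h1 <;>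
    obtain ⟨e1, e2⟩ := Prod.mk.inj h1
  · exact Or.inl ⟨hk _ _ e1, hk _ _ e2⟩
  · exact Or.inr ⟨hk _ _ e1, hk _ _ e2⟩
  · exact Or.inr ⟨hk _ _ e2, hk _ _ e1⟩
  · exact Or.inl ⟨hk _ _ e2, hk _ _ e1⟩

open Classical in
/-- one set of parameters -/
private theorem rel_one (F : Frame n c m N) {a h : ℕ} (hclq : ∀ {Λ : Finset (Fin G)}
    {q : Fin G → Fin 2 → Fin m} {p : Fin G → Fin z → Fin N}, F.Sys a h Λ q p →
    ∀ Y : Fin 2 → Fin G → Bool, Clq (F.gr Λ q p Y) ↔ ∃ i ∈ Λ, ∀ t, Y t i = true)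
    {Φ : Type} [Fintype Φ] (Λ : Φ → Finset (Fin G)) (q : Φ → Fin G → Fin 2 → Fin m)
    (p : Φ → Fin G → Fin z → Fin N) (hS : ∀ φ, F.Sys a h (Λ φ) (q φ) (p φ)) (g β : ℝ)
    (X : Fin 2 → Finset (EdgeVar n)) (T : (EdgeVar n → Bool) → Prop)
    (hT : Pool.Agent.RK.StarK X T) (hTc : ∀ x, T x → ¬ Clq x)
    (hφ : ((univ.filter fun φ : Φ => (((Λ φ).filter fun i =>
      ∀ t, F.ed t (q φ i t) ∈ X t).card : ℝ) < g).card : ℝ) ≤ Fintype.card Φ * β) :
    ((univ.filter fun j : Φ × (Fin G → Bool) =>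
      T (F.gr (Λ j.1) (q j.1) (p j.1) (fo j.2))).card : ℝ) ≤
      Fintype.card Φ * 2 ^ G * ((2 : ℝ) ^ (-g) + β) := by
  set B : Finset Φ := univ.filter fun φ : Φ => (((Λ φ).filter fun i =>
      ∀ t, F.ed t (q φ i t) ∈ X t).card : ℝ) < g with hB
  have h1 : ((univ.filter fun j : Φ × (Fin G → Bool) =>
      T (F.gr (Λ j.1) (q j.1) (p j.1) (fo j.2))).card : ℝ) =
      ∑ φ : Φ, ((univ.filter fun x : Fin G → Bool =>
        T (F.gr (Λ φ) (q φ) (p φ) (fo x))).card : ℝ) := by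
    rw [card_filter]
    push_cast
    rw [Fintype.sum_prod_type]
    refine sum_congr rfl fun φ _ => ?_
    rw [card_filter]
    push_cast
    rfl
  rw [h1]
  have h2 : ∀ φ : Φ, ((univ.filter fun x : Fin G → Bool =>
        T (F.gr (Λ φ) (q φ) (p φ) (fo x))).card : ℝ) ≤
      (2 : ℝ) ^ G * (2 : ℝ) ^ (-g) + if φ ∈ B then (2 : ℝ) ^ G else 0 := by
    intro φ
    split_ifs with hφB
    · have h3 : (univ.filter fun x : Fin G → Bool =>
        T (F.gr (Λ φ) (q φ) (p φ) (fo x))).card ≤ 2 ^ G := by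
        refine (card_le_univ _).trans (le_of_eq ?_)
        simp
      have h4 : ((univ.filter fun x : Fin G → Bool =>
        T (F.gr (Λ φ) (q φ) (p φ) (fo x))).card : ℝ) ≤ (2 : ℝ) ^ G := by exact_mod_cast h3
      have h5 : (0 : ℝ) ≤ (2 : ℝ) ^ G * (2 : ℝ) ^ (-g) := by positivity
      linarith
    · rw [add_zero]
      have h3 := fool F (fun Y => hclq (hS φ) Y) (fun Y Y' e he => indep F Y Y' e he) X
        ((Λ φ).filter fun i => ∀ t, F.ed t (q φ i t) ∈ X t) (filter_subset _ _)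
        (fun i hi => (mem_filter.1 hi).2) T hT hTc
      have h4 : g ≤ (((Λ φ).filter fun i => ∀ t, F.ed t (q φ i t) ∈ X t).card : ℝ) := by
        by_contra hc
        push Not at hc
        exact hφB (by simp only [hB, mem_filter, mem_univ, true_and]; exact hc)
      have h5 : ((univ.filter fun x : Fin G → Bool =>
        T (F.gr (Λ φ) (q φ) (p φ) (fo x))).card : ℝ) *
          (2 : ℝ) ^ ((Λ φ).filter fun i => ∀ t, F.ed t (q φ i t) ∈ X t).card ≤ (2 : ℝ) ^ G := by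
        exact_mod_cast h3
      rw [Real.rpow_neg (by norm_num), ← div_eq_mul_inv, le_div_iff₀ (by positivity)]
      refine le_trans (mul_le_mul_of_nonneg_left ?_ (Nat.cast_nonneg _)) h5
      rw [← Real.rpow_natCast (2 : ℝ) (Finset.card _)]
      exact Real.rpow_le_rpow_of_exponent_le (by norm_num) h4
  refine (sum_le_sum fun φ _ => h2 φ).trans ?_
  rw [sum_add_distrib, sum_const, card_univ, nsmul_eq_mul, ← sum_filter, sum_const, nsmul_eq_mul]
  have h6 : (univ.filter fun φ => φ ∈ B) = B := by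
    ext φ
    simp
  rw [h6]
  have h7 : (0 : ℝ) < (2 : ℝ) ^ G := by positivity
  have h8 := mul_le_mul_of_nonneg_right hφ h7.le
  nlinarith

private theorem rel_ev (η κ : ℝ) (hκ : 0 < κ) (C : ℝ) (_ : 0 < η) :
    ∀ᶠ n : ℕ in Filter.atTop, C ≤ (n : ℝ) ^ κ :=
  ((tendsto_rpow_atTop hκ).comp tendsto_natCast_atTop_atTop).eventually_ge_atTop C

open Classical in
/-- **Hard graphs for a given set of variables.** -/
theorem rel2 (γ ε : ℝ) (hγ : 0 ≤ γ) (hε : 0 < ε) : ∃ δ : ℝ, 0 < δ ∧ ∃ n₀ : ℕ, ∀ n ≥ n₀,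
    ∀ E : Finset (EdgeVar n), (n : ℝ) ^ (γ + ε) ≤ E.card →
      ∃ E₁ E₂ : Finset (EdgeVar n), E₁ ⊆ E ∧ E₂ ⊆ E ∧ Disjoint E₁ E₂ ∧ E₁.card = E₂.card ∧
        (E.card : ℝ) ≤ 1000 * E₁.card ∧
        ∃ (N : ℕ) (Q : Fin N → EdgeVar n → Bool), 0 < N ∧ (∀ i, ¬ Clq (Q i)) ∧
          ∀ X : Fin 2 → Finset (EdgeVar n), (n : ℝ) ^ (-δ) * (E₁.card : ℝ) ^ 2 ≤
            ((E₁ ∩ X 0).card : ℝ) * (E₂ ∩ X 1).card →
          ∀ T : (EdgeVar n → Bool) → Prop, Pool.Agent.RK.StarK X T → (∀ x, T x → ¬ Clq x) →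
            ((univ.filter fun i => T (Q i)).card : ℝ) ≤
              N * (2 : ℝ) ^ (-((n : ℝ) ^ (γ + ε / 2))) := by
  set η := min ε 1 / 8 with hη
  have hη0 : 0 < η := by
    have : 0 < min ε 1 := lt_min hε one_pos
    positivity
  have hη1 : η ≤ 1 / 8 := by
    have := min_le_right ε 1
    linarith
  have hηε : η ≤ ε / 8 := by
    have := min_le_left ε 1
    linarith
  obtain ⟨a, ha⟩ := exists_nat_ge (4 / η + 1)
  obtain ⟨h, hh⟩ := exists_nat_ge (8 / η + 1)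
  have ha' : 4 ≤ η * ((a : ℝ) - 1) := by
    have h1 : 4 / η ≤ (a : ℝ) - 1 := by linarith
    rw [div_le_iff₀ hη0] at h1
    linarith
  have hh' : 8 ≤ η * ((h : ℝ) - 1) := by
    have h1 : 8 / η ≤ (h : ℝ) - 1 := by linarith
    rw [div_le_iff₀ hη0] at h1
    linarith
  have ha1 : 1 ≤ a := by
    have h1 : (1 : ℝ) ≤ a := by
      have : 0 < 4 / η := by positivity
      linarith
    exact_mod_cast h1
  have hh2 : 2 ≤ h := by
    have h1 : (2 : ℝ) ≤ h := by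
      have : 1 ≤ 8 / η := by
        rw [le_div_iff₀ hη0]
        linarith
      linarith
    exact_mod_cast h1
  obtain ⟨z, hz⟩ : ∃ z, z = a * h ^ 2 := ⟨_, rfl⟩
  have hz1 : 1 ≤ z := by
    rw [hz]
    exact Nat.mul_pos ha1 (pow_pos (by omega) 2)
  obtain ⟨n₁, hfr⟩ := frame_exists
  have hcast := tendsto_natCast_atTop_atTop (R := ℝ)
  have hev : ∀ᶠ n : ℕ in Filter.atTop, (n₁ ≤ n ∧ 32 ≤ n ∧ (z + 4) ^ 2 ≤ n) ∧
      8 * 4096 * (z : ℝ) ^ 4 + 16 ≤ (n : ℝ) ^ (η / 2) ∧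
      512 * (z : ℝ) ^ 2 ≤ (n : ℝ) ^ (1 / 2 : ℝ) ∧
      (1000 : ℝ) ≤ (n : ℝ) ^ ε ∧ (48000 : ℝ) ≤ (n : ℝ) ^ (ε / 4) ∧
      (2000 : ℝ) ≤ (n : ℝ) ^ (ε / 2) ∧ (16 : ℝ) ≤ (n : ℝ) ^ (η / 4) := by
    filter_upwards [Filter.eventually_ge_atTop (max n₁ (max 32 ((z + 4) ^ 2))),
      rel_ev 1 (η / 2) (by positivity) (8 * 4096 * (z : ℝ) ^ 4 + 16) one_pos,
      rel_ev 1 (1 / 2) (by positivity) (512 * (z : ℝ) ^ 2) one_pos,
      rel_ev 1 ε hε 1000 one_pos, rel_ev 1 (ε / 4) (by positivity) 48000 one_pos,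
      rel_ev 1 (ε / 2) (by positivity) 2000 one_pos,
      rel_ev 1 (η / 4) (by positivity) 16 one_pos] with n k1 k2 k3 k4 k5 k6 k7
    refine ⟨⟨?_, ?_, ?_⟩, k2, k3, k4, k5, k6, k7⟩
    · exact le_trans (le_max_left _ _) k1
    · exact le_trans (le_trans (le_max_left _ _) (le_max_right _ _)) k1
    · exact le_trans (le_trans (le_max_right _ _) (le_max_right _ _)) k1
  obtain ⟨n₀, hn₀⟩ := Filter.eventually_atTop.1 hev
  refine ⟨η / 4, by positivity, n₀, fun n hn E hE => ?_⟩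
  obtain ⟨⟨k0, k1, k1'⟩, k2, k3, k4, k5, k6, k7⟩ := hn₀ n hn
  have hnR : (32 : ℝ) ≤ n := by exact_mod_cast k1
  have hn0 : (0 : ℝ) < n := by linarith
  have hn1 : (1 : ℝ) ≤ n := by linarith
  have hE1000 : 1000 ≤ E.card := by
    have h1 : (n : ℝ) ^ ε ≤ (n : ℝ) ^ (γ + ε) :=
      Real.rpow_le_rpow_of_exponent_le hn1 (by linarith)
    have h2 : (1000 : ℝ) ≤ E.card := by linarith
    exact_mod_cast h2
  obtain ⟨c, m, N, F₀, hc, hEm, hN, hR₀, hFE₀⟩ := hfr n k0 E hE1000 (Nat.sqrt n + 1) le_rfl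
  have hsqrt : z + 4 ≤ Nat.sqrt n := Nat.le_sqrt'.2 k1'
  obtain ⟨F, hR, hed⟩ := rel_shrink F₀ (r := Nat.sqrt n + 1 - (c + z)) (by omega)
  have hR' : F.R.card + (c + z) = Nat.sqrt n + 1 := by omega
  have hFE : ∀ t x, F.ed t x ∈ E := by
    rw [hed]
    exact hFE₀
  have hEmR : (E.card : ℝ) ≤ 1000 * m := by exact_mod_cast hEm
  have hm1 : 1 ≤ m := by omega
  have hNn : N ≤ n := by
    have := Fintype.card_le_of_injective _ F.pinj
    simpa using this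
  have hN1 : 1 ≤ N := by omega
  have hmn : m ≤ n ^ 2 := by
    have h1 := Fintype.card_le_of_injective _ (F.inj 0)
    have h2 : Fintype.card (EdgeVar n) ≤ Fintype.card (Fin n × Fin n) :=
      Fintype.card_subtype_le _
    rw [Fintype.card_fin] at h1
    rw [Fintype.card_prod, Fintype.card_fin] at h2
    calc m ≤ n * n := h1.trans h2
      _ = n ^ 2 := (sq n).symm
  -- the number of gadgets
  obtain ⟨G, hGdef⟩ : ∃ G : ℕ, G = ⌊(m : ℝ) * (n : ℝ) ^ (-η)⌋₊ := ⟨_, rfl⟩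
  have hmη : (0 : ℝ) ≤ (m : ℝ) * (n : ℝ) ^ (-η) := by positivity
  have hG : (G : ℝ) ≤ m * (n : ℝ) ^ (-η) := by
    rw [hGdef]
    exact Nat.floor_le hmη
  have hm2 : (n : ℝ) ^ (γ + ε) / 1000 ≤ m := by
    rw [div_le_iff₀ (by norm_num)]
    linarith
  have hmη2 : (n : ℝ) ^ (γ + ε - η) / 1000 ≤ m * (n : ℝ) ^ (-η) := by
    have h1 : (n : ℝ) ^ (γ + ε - η) = (n : ℝ) ^ (γ + ε) * (n : ℝ) ^ (-η) := by
      rw [← Real.rpow_add hn0]
      congr 1
    rw [h1, mul_div_right_comm]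
    exact mul_le_mul_of_nonneg_right hm2 (by positivity)
  have hbig : (2 : ℝ) ≤ (n : ℝ) ^ (γ + ε - η) / 1000 := by
    rw [le_div_iff₀ (by norm_num)]
    have h1 : (n : ℝ) ^ (ε / 2) ≤ (n : ℝ) ^ (γ + ε - η) :=
      Real.rpow_le_rpow_of_exponent_le hn1 (by linarith)
    linarith
  have hG2 : (n : ℝ) ^ (γ + ε - η) / 2000 ≤ G := by
    have h1 : m * (n : ℝ) ^ (-η) < G + 1 := by
      rw [hGdef]
      exact Nat.lt_floor_add_one _
    linarith
  have hG1 : 1 ≤ G := by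
    have h1 : (1 : ℝ) ≤ G := by linarith
    exact_mod_cast h1
  have hGpos : (0 : ℝ) < G := by exact_mod_cast hG1
  have hL0 : (0 : ℝ) < (n : ℝ) ^ (-(η / 2)) := by positivity
  obtain ⟨Φ, hΦ, Λ, q, p, hΦ0, hSys, hgood⟩ := rand F hm1 hN1 (G := G) (z := z) (a := a) (h := h)
    ha1 hh2 (G * (n : ℝ) ^ (-(η / 2))) (by positivity)
    (param a h z η hη0 (by linarith) ha' hh' hz1 k1 k2 k3 hm1 hmn hN hNn hc hG hG1)
  have hclq : ∀ {Λ : Finset (Fin G)} {q : Fin G → Fin 2 → Fin m} {p : Fin G → Fin z → Fin N},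
      F.Sys a h Λ q p → ∀ Y : Fin 2 → Fin G → Bool,
        Clq (F.gr Λ q p Y) ↔ ∃ i ∈ Λ, ∀ t, Y t i = true :=
    fun {Λ} {q} {p} hs Y => clq_iff F ha1 hh2 hz.ge hR' hs Y
  refine ⟨univ.image (F.ed 0), univ.image (F.ed 1), ?_, ?_, ?_, ?_, ?_, ?_⟩
  · intro e he
    obtain ⟨x, -, rfl⟩ := mem_image.1 he
    exact hFE 0 x
  · intro e he
    obtain ⟨x, -, rfl⟩ := mem_image.1 he
    exact hFE 1 x
  · rw [disjoint_left]
    intro e he he'
    obtain ⟨x, -, rfl⟩ := mem_image.1 he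
    obtain ⟨y, -, hy⟩ := mem_image.1 he'
    exact rel_disj F x y hy.symm
  · rw [card_image_of_injective _ (F.inj 0), card_image_of_injective _ (F.inj 1)]
  · rw [card_image_of_injective _ (F.inj 0), card_univ, Fintype.card_fin]
    exact hEmR
  obtain ⟨M, hM⟩ : ∃ M, M = Fintype.card (Φ × (Fin G → Bool)) := ⟨_, rfl⟩
  have hMR : (M : ℝ) = Fintype.card Φ * 2 ^ G := by
    rw [hM, Fintype.card_prod, Fintype.card_fun, Fintype.card_bool, Fintype.card_fin]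
    push_cast
    ring
  let e : Fin M ≃ Φ × (Fin G → Bool) := (Fintype.equivFinOfCardEq hM.symm).symm
  refine ⟨M, fun i => F.gr (Λ (e i).1) (q (e i).1) (p (e i).1) (fo (e i).2), ?_, ?_, ?_⟩
  · rw [hM, Fintype.card_prod]
    exact Nat.mul_pos hΦ0 Fintype.card_pos
  · intro i hi
    obtain ⟨j, -, hj⟩ := (hclq (hSys _) _).1 hi
    have h0 := hj 0
    have h1 := hj 1
    simp only [fo, if_true, one_ne_zero, if_false] at h0 h1
    rw [h0] at h1
    exact absurd h1 (by simp)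
  intro X hX T hT hTc
  rw [card_image_of_injective _ (F.inj 0), card_univ, Fintype.card_fin] at hX
  have hcount : ((univ.filter fun i => T (F.gr (Λ (e i).1) (q (e i).1) (p (e i).1)
      (fo (e i).2))).card : ℝ) = ((univ.filter fun j : Φ × (Fin G → Bool) =>
      T (F.gr (Λ j.1) (q j.1) (p j.1) (fo j.2))).card : ℝ) := by
    congr 1
    refine card_bij (fun i _ => e i) ?_ ?_ ?_
    · intro i hi
      exact mem_filter.2 ⟨mem_univ _, (mem_filter.1 hi).2⟩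
    · intro i _ j _ hij
      exact e.injective hij
    · intro j hj
      refine ⟨e.symm j, mem_filter.2 ⟨mem_univ _, ?_⟩, e.apply_symm_apply j⟩
      simpa using (mem_filter.1 hj).2
  rw [hcount]
  -- the good gadgets
  obtain ⟨ρ, hρdef⟩ : ∃ ρ : ℝ, ρ = (n : ℝ) ^ (-(η / 4)) := ⟨_, rfl⟩
  rw [← hρdef] at hX
  have hρ0 : 0 < ρ := by
    rw [hρdef]
    positivity
  have hρ1 : ρ ≤ 1 := by
    rw [hρdef]
    exact Real.rpow_le_one_of_one_le_of_nonpos hn1 (by linarith)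
  have hcardX : ∀ t, ((univ.filter fun x : Fin m => F.ed t x ∈ X t).card) =
      ((univ.image (F.ed t)) ∩ X t).card := by
    intro t
    rw [← card_image_of_injective _ (F.inj t)]
    congr 1
    ext v
    simp only [mem_image, mem_filter, mem_univ, true_and, mem_inter]
    constructor
    · rintro ⟨x, hx, rfl⟩
      exact ⟨⟨x, rfl⟩, hx⟩
    · rintro ⟨⟨x, rfl⟩, hx⟩
      exact ⟨x, hx, rfl⟩
  have hg := hgood (fun t => univ.filter fun x : Fin m => F.ed t x ∈ X t) ρ hρ0.le hρ1 (by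
    rw [hcardX 0, hcardX 1]
    exact hX)
  have hg2 : ρ * G / 8 ≤ ρ * G / 4 - 2 * (G * (n : ℝ) ^ (-(η / 2))) := by
    have h1 : (n : ℝ) ^ (-(η / 2)) * 16 ≤ ρ := by
      have h2 : ρ = (n : ℝ) ^ (-(η / 2)) * (n : ℝ) ^ (η / 4) := by
        rw [hρdef, ← Real.rpow_add hn0]
        congr 1
        ring
      rw [h2]
      exact mul_le_mul_of_nonneg_left k7 hL0.le
    nlinarith
  have hone := rel_one F hclq Λ q p hSys (ρ * G / 8) (2 * (2 : ℝ) ^ (-(ρ * G / 8))) X T hT hTc (by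
    refine le_trans ?_ (hg.trans ?_)
    · have hsub : (univ.filter fun φ : Φ => (((Λ φ).filter fun i =>
          ∀ t, F.ed t (q φ i t) ∈ X t).card : ℝ) < ρ * G / 8) ⊆
          univ.filter fun φ : Φ => (((Λ φ).filter fun i => ∀ t, q φ i t ∈
            univ.filter fun x : Fin m => F.ed t x ∈ X t).card : ℝ) <
              ρ * G / 4 - 2 * (G * (n : ℝ) ^ (-(η / 2))) := by
        intro φ hφ
        rw [mem_filter] at hφ ⊢
        refine ⟨mem_univ _, lt_of_lt_of_le ?_ hg2⟩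
        have : ((Λ φ).filter fun i => ∀ t, q φ i t ∈
            univ.filter fun x : Fin m => F.ed t x ∈ X t) =
            (Λ φ).filter fun i => ∀ t, F.ed t (q φ i t) ∈ X t := by
          ext i
          simp
        rw [this]
        exact hφ.2
      exact_mod_cast card_le_card hsub
    · refine mul_le_mul_of_nonneg_left ?_ (Nat.cast_nonneg _)
      refine mul_le_mul_of_nonneg_left ?_ (by norm_num)
      refine Real.rpow_le_rpow_of_exponent_le (by norm_num) ?_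
      have : 0 ≤ ρ * G := by positivity
      linarith)
  rw [← hMR] at hone
  refine hone.trans (mul_le_mul_of_nonneg_left ?_ (Nat.cast_nonneg _))
  have hfin : (n : ℝ) ^ (γ + ε / 2) + 2 ≤ ρ * G / 8 := by
    have h1 : (n : ℝ) ^ (γ + ε / 2) * (n : ℝ) ^ (ε / 4) ≤ ρ * (n : ℝ) ^ (γ + ε - η) := by
      rw [hρdef, ← Real.rpow_add hn0, ← Real.rpow_add hn0]
      exact Real.rpow_le_rpow_of_exponent_le hn1 (by linarith)
    have h2 : ρ * ((n : ℝ) ^ (γ + ε - η) / 2000) ≤ ρ * G :=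
      mul_le_mul_of_nonneg_left hG2 hρ0.le
    have h3 : (1 : ℝ) ≤ (n : ℝ) ^ (γ + ε / 2) :=
      Real.one_le_rpow hn1 (by linarith)
    have h4 : (n : ℝ) ^ (γ + ε / 2) * 48000 ≤ (n : ℝ) ^ (γ + ε / 2) * (n : ℝ) ^ (ε / 4) :=
      mul_le_mul_of_nonneg_left k5 (by linarith)
    linarith
  have h5 : (2 : ℝ) ^ (-(ρ * G / 8)) ≤ (2 : ℝ) ^ (-((n : ℝ) ^ (γ + ε / 2))) / 4 := by
    have h6 : (2 : ℝ) ^ (-((n : ℝ) ^ (γ + ε / 2))) / 4 =
        (2 : ℝ) ^ (-((n : ℝ) ^ (γ + ε / 2)) - 2) := by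
      rw [Real.rpow_sub (by norm_num)]
      norm_num
    rw [h6]
    exact Real.rpow_le_rpow_of_exponent_le (by norm_num) (by linarith)
  have h7 : (0 : ℝ) < (2 : ℝ) ^ (-((n : ℝ) ^ (γ + ε / 2))) := by positivity
  linarith

end Pool.Agent.RS
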