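import Mathlib
import Pool.Agent.Lib.MP_0a1b52_lc_RS.Rel
import Pool.Agent.Lib.MP_0a1b52_lc_RT.MainR

/-!
# How often a circuit reads the variables of a given set: refutation trees
-/

set_option autoImplicit false

namespace Pool.Agent.RS

open Finset Pool.Agent.FP Pool.Agent.RT

open Classical in
theorem mainS (γ ε : ℝ) (hγ : 0 ≤ γ) (hε : 0 < ε) : ∃ c : ℝ, 0 < c ∧ ∃ n₀ : ℕ, ∀ n ≥ n₀,
    ∀ E : Finset (EdgeVar n), (n : ℝ) ^ (γ + ε) ≤ E.card →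
      ∃ (N : ℕ) (Q : Fin N → EdgeVar n → Bool), 0 < N ∧ (∀ i, ¬ Clq (Q i)) ∧
        ∀ (s : ℕ) (D : Circuit (EdgeVar n) s), (∀ x, Clq x → D.Accepts x) →
          (s : ℝ) ≤ (2 : ℝ) ^ ((n : ℝ) ^ γ) →
          (∀ e ∈ E, ∀ L, Tree D D.out L → (L.count e : ℝ) ≤ c * Real.logb 2 n) →
          ((univ.filter fun i => ¬ D.Accepts (Q i)).card : ℝ) ≤
            N * (2 : ℝ) ^ (-((n : ℝ) ^ γ)) := by
  obtain ⟨δ, hδ, n₁, h1⟩ := rel2 γ ε hγ hε
  obtain ⟨c, hc, n₂, h2⟩ := mainR γ (ε / 2) δ hγ (by positivity) hδ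
  obtain ⟨n₃, h3⟩ := Filter.eventually_atTop.1
    (((tendsto_rpow_atTop (by positivity : 0 < ε / 2)).comp
      (tendsto_natCast_atTop_atTop (R := ℝ))).eventually_ge_atTop 1000)
  refine ⟨c, hc, max n₁ (max n₂ (max n₃ 1)), fun n hn E hE => ?_⟩
  have hn1 : n₁ ≤ n := le_trans (le_max_left _ _) hn
  have hn' := le_trans (le_max_right _ _) hn
  have hn2 : n₂ ≤ n := le_trans (le_max_left _ _) hn'
  have hn'' := le_trans (le_max_right _ _) hn'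
  have hn3 : n₃ ≤ n := le_trans (le_max_left _ _) hn''
  have hn4 : 1 ≤ n := le_trans (le_max_right _ _) hn''
  have hnR : (1 : ℝ) ≤ n := by exact_mod_cast hn4
  have hn0 : (0 : ℝ) < n := by linarith
  obtain ⟨E₁, E₂, hE1, hE2, hd, hcard, hE3, N, Q, hN, hQ, hT⟩ := h1 n hn1 E hE
  refine ⟨N, Q, hN, hQ, fun s D hD hs hcnt => ?_⟩
  have h4 : (n : ℝ) ^ (ε / 2) ≤ E₁.card := by
    have h5 : (1000 : ℝ) ≤ (n : ℝ) ^ (ε / 2) := h3 n hn3
    have h6 : (n : ℝ) ^ (ε / 2) * (n : ℝ) ^ (ε / 2) ≤ (n : ℝ) ^ (γ + ε) := by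
      rw [← Real.rpow_add hn0]
      exact Real.rpow_le_rpow_of_exponent_le hnR (by linarith)
    nlinarith
  refine h2 n hn2 E₁ E₂ hd hcard h4 N Q (fun x => ¬ Clq x) ?_ s D ?_ hs ?_
  · exact hT
  · exact fun x hx hc => hx (hD x hc)
  · intro e he L hL
    refine hcnt e ?_ L hL
    rcases mem_union.1 he with he | he
    · exact hE1 he
    · exact hE2 he

end Pool.Agent.RS
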